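import Pool.Agent.H626R5.Core

/-!
# The Brezis-Lieb property of `ℓ^q`
-/

noncomputable section

namespace H626Core

open Filter Topology
open scoped ENNReal

theorem BL_lp {ι : Type*} {p : ℝ≥0∞} [Fact (1 ≤ p)] (hp : p ≠ ⊤) :
    BL (lp (fun _ : ι => ℂ) p) p.toReal := by
  classical
  have hp1 : 1 ≤ p := Fact.out
  have hp0 : 0 < p.toReal := ENNReal.toReal_pos (by positivity) hp
  intro y B δ hδ
  set q := p.toReal with hq
  set M := ‖y‖ + |B| + 2 with hM
  -- uniform continuity of the power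
  have huc : UniformContinuousOn (fun t : ℝ => t ^ q) (Set.Icc 0 M) :=
    isCompact_Icc.uniformContinuousOn_of_continuous
      (Real.continuous_rpow_const hp0.le).continuousOn
  obtain ⟨η₀, hη₀, huc⟩ := Metric.uniformContinuousOn_iff.1 huc (δ / 3) (by positivity)
  set η := min (η₀ / 4) (1 / 4) with hη
  have hη0 : 0 < η := by positivity
  have hη1 : η ≤ η₀ / 4 := min_le_left _ _
  have hη2 : η ≤ 1 / 4 := min_le_right _ _
  have hpow : ∀ a b : ℝ, 0 ≤ a → a ≤ M → 0 ≤ b → b ≤ M → |a - b| ≤ 2 * η →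
      |a ^ q - b ^ q| ≤ δ / 3 := by
    intro a b ha haM hb hbM hab
    have := huc a ⟨ha, haM⟩ b ⟨hb, hbM⟩ (by rw [Real.dist_eq]; linarith)
    rw [Real.dist_eq] at this
    exact this.le
  -- truncation of y
  have hsum := lp.hasSum_single (E := fun _ : ι => ℂ) hp y
  obtain ⟨F, hF⟩ := (Metric.tendsto_nhds.1 hsum η hη0).exists
  rw [dist_eq_norm] at hF
  refine ⟨F.image (fun i => (lp.evalCLM ℂ (fun _ : ι => ℂ) p i)), η / (F.card + 1), by positivity,
    fun x hx hxF => ?_⟩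
  set yF : lp (fun _ : ι => ℂ) p := ∑ i ∈ F, lp.single p i (y i) with hyF
  set xF : lp (fun _ : ι => ℂ) p := ∑ i ∈ F, lp.single p i (x i) with hxFdef
  have hxFn : ‖xF‖ ≤ η := by
    refine (norm_sum_le _ _).trans ?_
    have h1 : ∀ i ∈ F, ‖lp.single (E := fun _ : ι => ℂ) p i (x i)‖ ≤ η / (F.card + 1) := by
      intro i hi
      rw [lp.norm_single (by positivity)]
      exact hxF _ (Finset.mem_image_of_mem _ hi)
    refine (Finset.sum_le_card_nsmul F _ _ h1).trans ?_
    rw [nsmul_eq_mul, mul_div_assoc', div_le_iff₀ (by positivity)]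
    nlinarith
  -- coordinates
  have hcoF : ∀ (z : lp (fun _ : ι => ℂ) p) (j : ι),
      (∑ i ∈ F, lp.single (E := fun _ : ι => ℂ) p i (z i) : lp (fun _ : ι => ℂ) p) j
        = if j ∈ F then z j else 0 := by
    intro z j
    rw [lp.coeFn_sum, Finset.sum_apply]
    by_cases hj : j ∈ F
    · rw [if_pos hj, Finset.sum_eq_single_of_mem j hj]
      · rw [lp.single_apply_self]
      · intro i _ hij
        rw [lp.single_apply_ne _ _ _ hij.symm]
    · rw [if_neg hj]
      refine Finset.sum_eq_zero fun i hi => ?_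
      rw [lp.single_apply_ne]
      rintro rfl
      exact hj hi
  -- exact additivity for disjoint supports
  have hadd : ‖yF + (x - xF)‖ ^ q = ‖yF‖ ^ q + ‖x - xF‖ ^ q := by
    rw [hq, lp.norm_rpow_eq_tsum hp0, lp.norm_rpow_eq_tsum hp0, lp.norm_rpow_eq_tsum hp0,
      ← Summable.tsum_add ((lp.memℓp yF).summable hp0) ((lp.memℓp (x - xF)).summable hp0)]
    refine tsum_congr fun j => ?_
    rw [lp.coeFn_add, lp.coeFn_sub, Pi.add_apply, Pi.sub_apply, hyF, hxFdef, hcoF, hcoF]
    by_cases hj : j ∈ F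
    · rw [if_pos hj, if_pos hj, sub_self, add_zero, norm_zero, Real.zero_rpow hp0.ne', add_zero]
    · rw [if_neg hj, if_neg hj, sub_zero, zero_add, norm_zero, Real.zero_rpow hp0.ne', zero_add]
  have hB : ‖x‖ ≤ |B| := hx.trans (le_abs_self B)
  have hyFn : ‖yF - y‖ ≤ η := hF.le
  have e1 : |‖y + x‖ ^ q - ‖yF + (x - xF)‖ ^ q| ≤ δ / 3 := by
    have h1 : ‖(y + x) - (yF + (x - xF))‖ ≤ 2 * η := by
      have : (y + x) - (yF + (x - xF)) = -(yF - y) + xF := by abel
      rw [this]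
      refine (norm_add_le _ _).trans ?_
      rw [norm_neg]
      linarith
    have h2 := abs_norm_sub_norm_le (y + x) (yF + (x - xF))
    have h3 : ‖y + x‖ ≤ ‖y‖ + |B| := (norm_add_le _ _).trans (by linarith)
    have h4 := (abs_le.1 (h2.trans h1)).1
    refine hpow _ _ (norm_nonneg _) (by linarith) (norm_nonneg _) ?_ (h2.trans h1)
    linarith
  have e2 : |‖y‖ ^ q - ‖yF‖ ^ q| ≤ δ / 3 := by
    have h2 := abs_norm_sub_norm_le yF y
    have h4 := (abs_le.1 (h2.trans hyFn)).2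
    have h5 : |‖y‖ - ‖yF‖| ≤ 2 * η := by rw [abs_sub_comm]; linarith
    have := abs_nonneg B
    refine hpow _ _ (norm_nonneg _) (by linarith) (norm_nonneg _) ?_ h5
    linarith
  have e3 : |‖x‖ ^ q - ‖x - xF‖ ^ q| ≤ δ / 3 := by
    have h2 := abs_norm_sub_norm_le x (x - xF)
    rw [sub_sub_cancel] at h2
    have h4 := (abs_le.1 (h2.trans hxFn)).1
    have := norm_nonneg y
    refine hpow _ _ (norm_nonneg _) (by linarith) (norm_nonneg _) ?_ (by linarith)
    linarith
  rw [abs_le] at e1 e2 e3 ⊢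
  constructor <;> linarith [e1.1, e1.2, e2.1, e2.2, e3.1, e3.2]

end H626Core
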