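import Mathlib

/-!
# Bounded homomorphisms from `C(X)` into operators on a Banach space with the
Brezis-Lieb property of exponent `q ≠ 2` have joint eigenvectors.
-/

noncomputable section

namespace H626Core

open Filter Topology

variable {X : Type*} [MetricSpace X] [CompactSpace X]
variable {Y : Type*} [NormedAddCommGroup Y] [NormedSpace ℂ Y]

/-- The Brezis-Lieb property of exponent `q`: vectors which are small on a suitable finite set of
functionals are almost disjoint from a given vector. -/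
def BL (Y : Type*) [NormedAddCommGroup Y] [NormedSpace ℂ Y] (q : ℝ) : Prop :=
  ∀ (y : Y) (B δ : ℝ), 0 < δ → ∃ (F : Finset (Y →L[ℂ] ℂ)) (ε : ℝ), 0 < ε ∧
    ∀ x : Y, ‖x‖ ≤ B → (∀ e ∈ F, ‖e x‖ ≤ ε) → |‖y + x‖ ^ q - ‖y‖ ^ q - ‖x‖ ^ q| ≤ δ

/-- At a point, a finite disjoint family has at most one nonzero member. -/
theorem disj_point {ι R : Type*} [Ring R] [NoZeroDivisors R] [TopologicalSpace R]
    [IsTopologicalRing R] (s : Finset ι) (f : ι → C(X, R))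
    (hd : ∀ i ∈ s, ∀ j ∈ s, i ≠ j → f i * f j = 0) (x : X) :
    (∀ i ∈ s, f i x = 0) ∨ ∃ i ∈ s, ∀ j ∈ s, j ≠ i → f j x = 0 := by
  by_cases h : ∀ i ∈ s, f i x = 0
  · exact Or.inl h
  · push Not at h
    obtain ⟨i, hi, hne⟩ := h
    refine Or.inr ⟨i, hi, fun j hj hji => ?_⟩
    have h1 := congrArg (fun g : C(X, R) => g x) (hd j hj i hi hji)
    simp only [ContinuousMap.mul_apply, ContinuousMap.zero_apply] at h1
    rcases mul_eq_zero.1 h1 with h2 | h2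
    · exact h2
    · exact absurd h2 hne

theorem norm_sum_disj {ι : Type*} (s : Finset ι) (f : ι → C(X, ℂ)) (c : ι → ℂ)
    (hf : ∀ i ∈ s, ‖f i‖ ≤ 1) (hc : ∀ i ∈ s, ‖c i‖ ≤ 1)
    (hd : ∀ i ∈ s, ∀ j ∈ s, i ≠ j → f i * f j = 0) :
    ‖∑ i ∈ s, c i • f i‖ ≤ 1 := by
  rw [ContinuousMap.norm_le _ zero_le_one]
  intro x
  rw [ContinuousMap.sum_apply]
  simp only [ContinuousMap.smul_apply, smul_eq_mul]
  rcases disj_point s f hd x with h | ⟨i, hi, h⟩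
  · rw [Finset.sum_eq_zero (fun i hi => by rw [h i hi, mul_zero])]
    simp
  · rw [Finset.sum_eq_single_of_mem i hi (fun j hj hji => by rw [h j hj hji, mul_zero]), norm_mul]
    have h1 := hc i hi
    have h2 : ‖f i x‖ ≤ 1 := ((f i).norm_coe_le_norm x).trans (hf i hi)
    calc ‖c i‖ * ‖f i x‖ ≤ 1 * 1 := mul_le_mul h1 h2 (norm_nonneg _) zero_le_one
      _ = 1 := one_mul 1

section tau

variable (τ : C(X, ℂ) →ₗ[ℂ] Y) (C : ℝ)

theorem tau_le (hτ : ∀ f g, ‖τ (f * g)‖ ≤ C * ‖f‖ * ‖τ g‖) (hC : 0 ≤ C) (f : C(X, ℂ))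
    (hf : ‖f‖ ≤ 1) : ‖τ f‖ ≤ C * ‖τ 1‖ := by
  have h := hτ f 1
  rw [mul_one] at h
  refine h.trans ?_
  have : C * ‖f‖ ≤ C := by nlinarith
  exact mul_le_mul_of_nonneg_right this (norm_nonneg _)

theorem lemW (hτ : ∀ f g, ‖τ (f * g)‖ ≤ C * ‖f‖ * ‖τ g‖) (hC : 0 ≤ C)
    {ι : Type*} (s : Finset ι) (f : ι → C(X, ℂ)) (hf : ∀ i ∈ s, ‖f i‖ ≤ 1)
    (hd : ∀ i ∈ s, ∀ j ∈ s, i ≠ j → f i * f j = 0) (e : Y →L[ℂ] ℂ) :
    ∑ i ∈ s, ‖e (τ (f i))‖ ≤ ‖e‖ * (C * ‖τ 1‖) := by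
  choose c hc1 hc2 using fun i => RCLike.exists_norm_eq_mul_self (e (τ (f i)))
  have h1 : ((∑ i ∈ s, ‖e (τ (f i))‖ : ℝ) : ℂ) = e (τ (∑ i ∈ s, c i • f i)) := by
    rw [map_sum, map_sum, Complex.ofReal_sum]
    refine Finset.sum_congr rfl fun i _ => ?_
    rw [map_smul, map_smul, smul_eq_mul]
    exact hc2 i
  have h2 : ‖((∑ i ∈ s, ‖e (τ (f i))‖ : ℝ) : ℂ)‖ = ∑ i ∈ s, ‖e (τ (f i))‖ := by
    rw [Complex.norm_real, Real.norm_of_nonneg (Finset.sum_nonneg fun _ _ => norm_nonneg _)]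
  rw [← h2, h1]
  refine (e.le_opNorm _).trans ?_
  refine mul_le_mul_of_nonneg_left ?_ (norm_nonneg _)
  exact tau_le τ C hτ hC _ (norm_sum_disj s f c hf (fun i _ => (hc1 i).le) hd)

theorem lemU (hτ : ∀ f g, ‖τ (f * g)‖ ≤ C * ‖f‖ * ‖τ g‖) (hC : 0 ≤ C)
    {q : ℝ} (hq : 0 < q) (hBL : BL Y q) (f : ℕ → C(X, ℂ)) (hf : ∀ i, ‖f i‖ ≤ 1)
    (hd : ∀ i j, i ≠ j → f i * f j = 0) (δ : ℝ) (hδ : 0 < δ) :
    ∃ k, ‖τ (f k)‖ < δ := by
  by_contra hcon
  push Not at hcon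
  set B := C * ‖τ 1‖ with hB
  have hB0 : 0 ≤ B := mul_nonneg hC (norm_nonneg _)
  -- finiteness of large coefficients
  have hfin : ∀ (e : Y →L[ℂ] ℂ) (ε : ℝ), 0 < ε → {k | ε < ‖e (τ (f k))‖}.Finite := by
    intro e ε hε
    by_contra hinf
    obtain ⟨n, hn⟩ := exists_nat_gt (‖e‖ * B / ε)
    obtain ⟨t, ht1, ht2⟩ := Set.Infinite.exists_subset_card_eq hinf n
    have h1 := lemW τ C hτ hC t f (fun i _ => hf i) (fun i _ j _ h => hd i j h) e
    have h2 : (n : ℝ) * ε ≤ ∑ i ∈ t, ‖e (τ (f i))‖ := by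
      rw [← ht2, ← nsmul_eq_mul]
      exact Finset.card_nsmul_le_sum _ _ _ fun i hi => (ht1 hi).le
    rw [div_lt_iff₀ hε] at hn
    linarith
  have hδq : 0 < δ ^ q := Real.rpow_pos_of_pos hδ q
  have key : ∀ m : ℕ, ∃ S : Finset ℕ, (m : ℝ) * (δ ^ q / 2) ≤ ‖τ (∑ k ∈ S, f k)‖ ^ q := by
    intro m
    induction m with
    | zero =>
      refine ⟨∅, ?_⟩
      simp only [Nat.cast_zero, zero_mul]
      exact Real.rpow_nonneg (norm_nonneg _) _
    | succ m ih =>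
      obtain ⟨S, hS⟩ := ih
      obtain ⟨F, ε, hε, hF⟩ := hBL (τ (∑ k ∈ S, f k)) B (δ ^ q / 2) (by positivity)
      have hbad : ((⋃ e ∈ F, {k | ε < ‖e (τ (f k))‖}) ∪ (S : Set ℕ)).Finite := by
        refine Set.Finite.union ?_ S.finite_toSet
        exact Set.Finite.biUnion F.finite_toSet fun e _ => hfin e ε hε
      obtain ⟨k, hk⟩ := hbad.exists_notMem
      simp only [Set.mem_union, Set.mem_iUnion, Set.mem_setOf_eq, not_or, not_exists,
        Finset.mem_coe, not_lt] at hk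
      refine ⟨insert k S, ?_⟩
      rw [Finset.sum_insert hk.2, map_add, add_comm (τ (f k))]
      have h1 := hF (τ (f k)) (tau_le τ C hτ hC _ (hf k)) (fun e he => hk.1 e he)
      have h2 : δ ^ q ≤ ‖τ (f k)‖ ^ q := Real.rpow_le_rpow hδ.le (hcon k) hq.le
      have h3 := (abs_le.1 h1).1
      push_cast
      linarith
  obtain ⟨m, hm⟩ := exists_nat_gt (B ^ q / (δ ^ q / 2))
  obtain ⟨S, hS⟩ := key m
  have h1 : ‖τ (∑ k ∈ S, f k)‖ ≤ B := by
    refine tau_le τ C hτ hC _ ?_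
    have := norm_sum_disj S f (fun _ => 1) (fun i _ => hf i) (fun i _ => by simp)
      (fun i _ j _ h => hd i j h)
    simpa using this
  have h2 : ‖τ (∑ k ∈ S, f k)‖ ^ q ≤ B ^ q := Real.rpow_le_rpow (norm_nonneg _) h1 hq.le
  rw [div_lt_iff₀ (by positivity)] at hm
  linarith

end tau

/-- The bump around `x₀`: one on the ball of radius `4⁻ⁿ`, zero outside the ball of radius
`2·4⁻ⁿ`. -/
def bump (x₀ : X) (n : ℕ) : C(X, ℂ) :=
  ⟨fun x => ((max 0 (min 1 (2 - 4 ^ n * dist x x₀)) : ℝ) : ℂ), by fun_prop⟩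

theorem bump_apply (x₀ : X) (n : ℕ) (x : X) :
    bump x₀ n x = ((max 0 (min 1 (2 - 4 ^ n * dist x x₀)) : ℝ) : ℂ) := rfl

theorem bump_val (x₀ : X) (n : ℕ) (x : X) :
    ∃ t : ℝ, 0 ≤ t ∧ t ≤ 1 ∧ bump x₀ n x = (t : ℂ) :=
  ⟨_, le_max_left _ _, max_le zero_le_one (min_le_left _ _), rfl⟩

theorem bump_one (x₀ : X) (n : ℕ) (x : X) (h : 4 ^ n * dist x x₀ ≤ 1) : bump x₀ n x = 1 := by
  rw [bump_apply, min_eq_left (by linarith), max_eq_right zero_le_one, Complex.ofReal_one]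

theorem bump_zero (x₀ : X) (n : ℕ) (x : X) (h : 2 ≤ 4 ^ n * dist x x₀) : bump x₀ n x = 0 := by
  rw [bump_apply, min_eq_right (by linarith), max_eq_left (by linarith), Complex.ofReal_zero]

theorem bump_norm (x₀ : X) (n : ℕ) : ‖bump x₀ n‖ ≤ 1 := by
  rw [ContinuousMap.norm_le _ zero_le_one]
  intro x
  obtain ⟨t, h0, h1, h2⟩ := bump_val x₀ n x
  rw [h2, Complex.norm_real, Real.norm_of_nonneg h0]
  exact h1

theorem bump_sub_norm (x₀ : X) (n m : ℕ) : ‖bump x₀ n - bump x₀ m‖ ≤ 1 := by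
  rw [ContinuousMap.norm_le _ zero_le_one]
  intro x
  obtain ⟨t, h0, h1, h2⟩ := bump_val x₀ n x
  obtain ⟨t', h0', h1', h2'⟩ := bump_val x₀ m x
  rw [ContinuousMap.sub_apply, h2, h2', ← Complex.ofReal_sub, Complex.norm_real, Real.norm_eq_abs,
    abs_le]
  constructor <;> linarith

theorem bump_mul (x₀ : X) {m n : ℕ} (h : m < n) : bump x₀ m * bump x₀ n = bump x₀ n := by
  ext x
  rw [ContinuousMap.mul_apply]
  by_cases hx : 2 ≤ 4 ^ n * dist x x₀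
  · rw [bump_zero x₀ n x hx, mul_zero]
  · push Not at hx
    have h1 : (4 : ℝ) ^ m * 4 ≤ 4 ^ n := by
      rw [← pow_succ]
      exact pow_le_pow_right₀ (by norm_num) h
    have h2 : 0 ≤ dist x x₀ := dist_nonneg
    have h3 : (4 : ℝ) ^ m * dist x x₀ ≤ 1 := by
      have : (4 : ℝ) ^ m * 4 * dist x x₀ ≤ 4 ^ n * dist x x₀ := mul_le_mul_of_nonneg_right h1 h2
      nlinarith
    rw [bump_one x₀ m x h3, one_mul]

theorem bump_cauchy (τ : C(X, ℂ) →ₗ[ℂ] Y) (C : ℝ)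
    (hτ : ∀ f g, ‖τ (f * g)‖ ≤ C * ‖f‖ * ‖τ g‖) (hC : 0 ≤ C)
    {q : ℝ} (hq : 0 < q) (hBL : BL Y q) (x₀ : X) :
    CauchySeq (fun n => τ (bump x₀ n)) := by
  rw [Metric.cauchySeq_iff']
  by_contra hcon
  push Not at hcon
  obtain ⟨δ, hδ, h⟩ := hcon
  choose g hg1 hg2 using h
  have hg3 : ∀ N, N < g N := by
    intro N
    rcases (hg1 N).lt_or_eq with h | h
    · exact h
    · exfalso
      have := hg2 N
      rw [← h, dist_self] at this
      linarith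
  -- the sequence of indices
  let ν : ℕ → ℕ := fun k => Nat.rec 0 (fun _ m => g m + 1) k
  have hν : ∀ k, ν (k + 1) = g (ν k) + 1 := fun k => rfl
  have hmono : StrictMono ν := strictMono_nat_of_lt_succ fun k => by
    rw [hν]
    have := hg3 (ν k)
    omega
  have hprod : ∀ j k, j < k →
      (bump x₀ (g (ν j)) - bump x₀ (ν j)) * (bump x₀ (g (ν k)) - bump x₀ (ν k)) = 0 := by
    intro j k hjk
    have h1 : ν (j + 1) ≤ ν k := hmono.monotone hjk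
    rw [hν] at h1
    have h2 := hg3 (ν j)
    have h3 := hg3 (ν k)
    rw [sub_mul, mul_sub, mul_sub, bump_mul x₀ (by omega : g (ν j) < g (ν k)),
      bump_mul x₀ (by omega : g (ν j) < ν k), bump_mul x₀ (by omega : ν j < g (ν k)),
      bump_mul x₀ (by omega : ν j < ν k)]
    simp
  obtain ⟨k, hk⟩ := lemU τ C hτ hC hq hBL (fun k => bump x₀ (g (ν k)) - bump x₀ (ν k))
    (fun k => bump_sub_norm _ _ _) (fun i j hij => by
      rcases lt_or_gt_of_ne hij with h | h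
      · exact hprod i j h
      · show (bump x₀ (g (ν i)) - bump x₀ (ν i)) * (bump x₀ (g (ν j)) - bump x₀ (ν j)) = 0
        rw [mul_comm]
        exact hprod j i h) δ hδ
  have h2 := hg2 (ν k)
  rw [dist_eq_norm, ← map_sub] at h2
  exact absurd hk (not_lt.2 h2)

/-- Point masses give joint eigenvectors. -/
theorem lemA [CompleteSpace Y] (T : C(X, ℂ) →ₗ[ℂ] (Y →L[ℂ] Y)) (C : ℝ) (hC : 0 ≤ C)
    (hmul : ∀ f g, T (f * g) = T f * T g) (hbd : ∀ f, ‖T f‖ ≤ C * ‖f‖)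
    (τ : C(X, ℂ) →ₗ[ℂ] Y) (ξ : Y) (hτξ : ∀ f, τ f = T f ξ)
    (hτ : ∀ f g, ‖τ (f * g)‖ ≤ C * ‖f‖ * ‖τ g‖)
    {q : ℝ} (hq : 0 < q) (hBL : BL Y q)
    (hno : ¬ ∃ (x₀ : X) (η : Y), η ≠ 0 ∧ ∀ f : C(X, ℂ), T f η = f x₀ • η) (x₀ : X) :
    Tendsto (fun n => τ (bump x₀ n)) atTop (𝓝 0) := by
  obtain ⟨η, hη⟩ := cauchySeq_tendsto_of_complete (bump_cauchy τ C hτ hC hq hBL x₀)
  by_cases h0 : η = 0
  · rwa [h0] at hη
  exfalso
  apply hno
  refine ⟨x₀, η, h0, fun f => ?_⟩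
  have h1 : Tendsto (fun n => T f (τ (bump x₀ n))) atTop (𝓝 (T f η)) :=
    ((T f).continuous.tendsto η).comp hη
  have hsmall : Tendsto (fun n => τ ((f - ContinuousMap.const X (f x₀)) * bump x₀ n)) atTop
      (𝓝 0) := by
    rw [Metric.tendsto_atTop]
    intro ε hε
    set M := C * ‖τ 1‖ + 1 with hM
    have hM0 : 0 < M := by positivity
    obtain ⟨ρ, hρ, hρ2⟩ := Metric.continuousAt_iff.1 (f.continuous.continuousAt (x := x₀))
      (ε / M / 2) (by positivity)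
    obtain ⟨N, hN⟩ := exists_nat_gt (2 / ρ)
    refine ⟨N, fun n hn => ?_⟩
    have h4 : (n : ℝ) ≤ 4 ^ n := by
      have : n ≤ 4 ^ n := (Nat.lt_pow_self (by norm_num)).le
      exact_mod_cast this
    have h5 : 2 < ρ * 4 ^ n := by
      rw [div_lt_iff₀ hρ] at hN
      have : (N : ℝ) ≤ n := by exact_mod_cast hn
      nlinarith
    have hnorm : ‖(f - ContinuousMap.const X (f x₀)) * bump x₀ n‖ ≤ ε / M / 2 := by
      rw [ContinuousMap.norm_le _ (by positivity)]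
      intro x
      rw [ContinuousMap.mul_apply, ContinuousMap.sub_apply, ContinuousMap.const_apply, norm_mul]
      by_cases hx : 2 ≤ 4 ^ n * dist x x₀
      · rw [bump_zero x₀ n x hx, norm_zero, mul_zero]
        positivity
      · push Not at hx
        have h6 : dist x x₀ < ρ := by
          by_contra h7
          push Not at h7
          have : (4 : ℝ) ^ n * ρ ≤ 4 ^ n * dist x x₀ :=
            mul_le_mul_of_nonneg_left h7 (by positivity)
          nlinarith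
        have h8 := hρ2 h6
        rw [dist_eq_norm] at h8
        have h9 : ‖bump x₀ n x‖ ≤ 1 := ((bump x₀ n).norm_coe_le_norm x).trans (bump_norm _ _)
        calc ‖f x - f x₀‖ * ‖bump x₀ n x‖ ≤ (ε / M / 2) * 1 :=
              mul_le_mul h8.le h9 (norm_nonneg _) (by positivity)
          _ = ε / M / 2 := mul_one _
    rw [dist_zero_right]
    have h10 := hτ ((f - ContinuousMap.const X (f x₀)) * bump x₀ n) 1
    rw [mul_one] at h10
    calc ‖τ ((f - ContinuousMap.const X (f x₀)) * bump x₀ n)‖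
        ≤ C * ‖(f - ContinuousMap.const X (f x₀)) * bump x₀ n‖ * ‖τ 1‖ := h10
      _ = (C * ‖τ 1‖) * ‖(f - ContinuousMap.const X (f x₀)) * bump x₀ n‖ := by ring
      _ ≤ M * (ε / M / 2) := mul_le_mul (by linarith) hnorm (norm_nonneg _) hM0.le
      _ = ε / 2 := by field_simp
      _ < ε := by linarith
  have h2 : ∀ n, T f (τ (bump x₀ n)) =
      f x₀ • τ (bump x₀ n) + τ ((f - ContinuousMap.const X (f x₀)) * bump x₀ n) := by
    intro n
    have h3 : (f - ContinuousMap.const X (f x₀)) * bump x₀ n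
        = f * bump x₀ n - f x₀ • bump x₀ n := by
      ext x
      simp [sub_mul]
    rw [h3, map_sub, map_smul, add_sub_cancel, hτξ, hτξ, hmul]
    rfl
  have h3 : Tendsto (fun n => T f (τ (bump x₀ n))) atTop (𝓝 (f x₀ • η + 0)) := by
    simp_rw [h2]
    exact (hη.const_smul (f x₀)).add hsmall
  rw [add_zero] at h3
  exact tendsto_nhds_unique h1 h3

theorem lemA' [CompleteSpace Y] (T : C(X, ℂ) →ₗ[ℂ] (Y →L[ℂ] Y)) (C : ℝ) (hC : 0 < C)
    (hmul : ∀ f g, T (f * g) = T f * T g) (hbd : ∀ f, ‖T f‖ ≤ C * ‖f‖)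
    (τ : C(X, ℂ) →ₗ[ℂ] Y) (ξ : Y) (hτξ : ∀ f, τ f = T f ξ)
    (hτ : ∀ f g, ‖τ (f * g)‖ ≤ C * ‖f‖ * ‖τ g‖)
    {q : ℝ} (hq : 0 < q) (hBL : BL Y q)
    (hno : ¬ ∃ (x₀ : X) (η : Y), η ≠ 0 ∧ ∀ f : C(X, ℂ), T f η = f x₀ • η)
    (x₀ : X) (ε : ℝ) (hε : 0 < ε) :
    ∃ r : ℝ, 0 < r ∧ ∀ g : C(X, ℂ), ‖g‖ ≤ 1 → (∀ x, r ≤ dist x x₀ → g x = 0) → ‖τ g‖ ≤ ε := by
  have h := lemA T C hC.le hmul hbd τ ξ hτξ hτ hq hBL hno x₀
  obtain ⟨n, hn⟩ := (Metric.tendsto_atTop.1 h (ε / C) (by positivity))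
  have h1 := hn n le_rfl
  rw [dist_zero_right] at h1
  refine ⟨1 / 4 ^ n, by positivity, fun g hg hsupp => ?_⟩
  have h2 : g = g * bump x₀ n := by
    ext x
    rw [ContinuousMap.mul_apply]
    by_cases hx : 1 / 4 ^ n ≤ dist x x₀
    · rw [hsupp x hx, zero_mul]
    · push Not at hx
      rw [lt_div_iff₀ (by positivity)] at hx
      rw [bump_one x₀ n x (by linarith), mul_one]
  rw [h2]
  refine (hτ g _).trans ?_
  calc C * ‖g‖ * ‖τ (bump x₀ n)‖ ≤ C * 1 * (ε / C) := by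
        refine mul_le_mul ?_ h1.le (norm_nonneg _) (by positivity)
        exact mul_le_mul_of_nonneg_left hg hC.le
    _ = ε := by field_simp

end H626Core
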