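import Pool.Agent.H626R5.Core

/-!
# The joint eigenvector theorem: partitions, signs and the martingale
-/

noncomputable section

namespace H626Core

open Filter Topology

variable {X : Type*} [MetricSpace X] [CompactSpace X]
variable {Y : Type*} [NormedAddCommGroup Y] [NormedSpace ℂ Y]

/-- Real functions as complex functions. -/
def cr : C(X, ℝ) →+* C(X, ℂ) :=
  RingHom.compLeftContinuous X Complex.ofRealHom Complex.continuous_ofReal

omit [CompactSpace X] in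
theorem cr_apply (f : C(X, ℝ)) (x : X) : cr f x = (f x : ℂ) := rfl

theorem cr_norm_le (f : C(X, ℝ)) (h : ∀ x, |f x| ≤ 1) : ‖cr f‖ ≤ 1 := by
  rw [ContinuousMap.norm_le _ zero_le_one]
  intro x
  rw [cr_apply, Complex.norm_real]
  exact h x

/-- The two halves of a shell partition. -/
def shB (y : X) (α β : ℝ) : C(X, ℝ) :=
  ⟨fun x => max 0 (min 1 ((α + β - 2 * dist x y) / (β - α))), by fun_prop⟩

def shC (y : X) (α β : ℝ) : C(X, ℝ) :=
  ⟨fun x => max 0 (min 1 (-((α + β - 2 * dist x y) / (β - α)))), by fun_prop⟩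

omit [CompactSpace X] in
theorem shB_apply (y : X) (α β : ℝ) (x : X) :
    shB y α β x = max 0 (min 1 ((α + β - 2 * dist x y) / (β - α))) := rfl

omit [CompactSpace X] in
theorem shC_apply (y : X) (α β : ℝ) (x : X) :
    shC y α β x = max 0 (min 1 (-((α + β - 2 * dist x y) / (β - α)))) := rfl

omit [CompactSpace X] in
theorem shB_bd (y : X) (α β : ℝ) (x : X) : 0 ≤ shB y α β x ∧ shB y α β x ≤ 1 :=
  ⟨le_max_left _ _, max_le zero_le_one (min_le_left _ _)⟩

omit [CompactSpace X] in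
theorem shC_bd (y : X) (α β : ℝ) (x : X) : 0 ≤ shC y α β x ∧ shC y α β x ≤ 1 :=
  ⟨le_max_left _ _, max_le zero_le_one (min_le_left _ _)⟩

omit [CompactSpace X] in
theorem sh_or (y : X) (α β : ℝ) (x : X) : shB y α β x = 0 ∨ shC y α β x = 0 := by
  rw [shB_apply, shC_apply]
  rcases le_total ((α + β - 2 * dist x y) / (β - α)) 0 with h | h
  · left
    rw [min_eq_right (by linarith), max_eq_left h]
  · right
    rw [min_eq_right (by linarith), max_eq_left (by linarith)]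

omit [CompactSpace X] in
theorem sh_mul (y : X) (α β : ℝ) : shB y α β * shC y α β = 0 := by
  ext x
  rw [ContinuousMap.mul_apply, ContinuousMap.zero_apply]
  exact mul_eq_zero.2 (sh_or y α β x)

omit [CompactSpace X] in
theorem sh_low (y : X) {α β : ℝ} (h : α < β) (x : X) (hx : dist x y ≤ α) :
    shB y α β x = 1 ∧ shC y α β x = 0 := by
  have h1 : 1 ≤ (α + β - 2 * dist x y) / (β - α) := by
    rw [le_div_iff₀ (by linarith)]; linarith
  rw [shB_apply, shC_apply]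
  exact ⟨by rw [min_eq_left h1, max_eq_right zero_le_one],
    by rw [min_eq_right (by linarith), max_eq_left (by linarith)]⟩

omit [CompactSpace X] in
theorem sh_high (y : X) {α β : ℝ} (h : α < β) (x : X) (hx : β ≤ dist x y) :
    shB y α β x = 0 ∧ shC y α β x = 1 := by
  have h1 : (α + β - 2 * dist x y) / (β - α) ≤ -1 := by
    rw [div_le_iff₀ (by linarith)]; linarith
  rw [shB_apply, shC_apply]
  exact ⟨by rw [min_eq_right (by linarith), max_eq_left (by linarith)],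
    by rw [min_eq_left (by linarith), max_eq_right zero_le_one]⟩

theorem sh_norm (y : X) (α β : ℝ) : ‖cr (1 - shB y α β - shC y α β)‖ ≤ 1 := by
  refine cr_norm_le _ fun x => ?_
  have h1 := shB_bd y α β x
  have h2 := shC_bd y α β x
  simp only [ContinuousMap.sub_apply, ContinuousMap.one_apply]
  rw [abs_le]
  rcases sh_or y α β x with h | h <;> rw [h] <;> constructor <;> linarith [h1.1, h1.2, h2.1, h2.2]

theorem lemShell (τ : C(X, ℂ) →ₗ[ℂ] Y) (C : ℝ)
    (hτ : ∀ f g, ‖τ (f * g)‖ ≤ C * ‖f‖ * ‖τ g‖) (hC : 0 ≤ C)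
    {q : ℝ} (hq : 0 < q) (hBL : BL Y q) (y : X) (r : ℝ) (hr : 0 < r) (ε : ℝ) (hε : 0 < ε) :
    ∃ b c : C(X, ℝ), (∀ x, 0 ≤ b x ∧ b x ≤ 1) ∧ (∀ x, 0 ≤ c x ∧ c x ≤ 1) ∧ b * c = 0 ∧
      (∀ x, r ≤ dist x y → b x = 0) ∧ (∀ x, dist x y ≤ r / 2 → c x = 0) ∧
      ‖τ (cr (1 - b - c))‖ ≤ ε := by
  -- radii
  let a : ℕ → ℝ := fun k => r * (1 - (1 / 2) ^ (k + 1))
  have ha : StrictMono a := strictMono_nat_of_lt_succ fun k => by
    have h1 : (0 : ℝ) < (1 / 2) ^ (k + 1) := by positivity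
    have h2 : ((1 : ℝ) / 2) ^ (k + 1 + 1) = (1 / 2) ^ (k + 1) * (1 / 2) := pow_succ _ _
    show r * (1 - (1 / 2) ^ (k + 1)) < r * (1 - (1 / 2) ^ (k + 1 + 1))
    refine mul_lt_mul_of_pos_left ?_ hr
    rw [h2]
    linarith
  have ha0 : ∀ k, r / 2 ≤ a k := fun k => by
    have h1 : a 0 ≤ a k := ha.monotone (Nat.zero_le k)
    have h2 : a 0 = r / 2 := by
      show r * (1 - (1 / 2) ^ (0 + 1)) = r / 2
      norm_num
      ring
    linarith
  have ha1 : ∀ k, a k ≤ r := fun k => by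
    have h1 : (0 : ℝ) < (1 / 2) ^ (k + 1) := by positivity
    show r * (1 - (1 / 2) ^ (k + 1)) ≤ r
    nlinarith
  have hdisj : ∀ j k, j < k → cr (1 - shB y (a j) (a (j + 1)) - shC y (a j) (a (j + 1))) *
      cr (1 - shB y (a k) (a (k + 1)) - shC y (a k) (a (k + 1))) = 0 := by
    intro j k hjk
    rw [← map_mul, ← map_zero cr]
    congr 1
    ext x
    simp only [ContinuousMap.mul_apply, ContinuousMap.sub_apply, ContinuousMap.one_apply,
      ContinuousMap.zero_apply]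
    have h1 : a (j + 1) ≤ a k := ha.monotone hjk
    rcases le_total (a (j + 1)) (dist x y) with h | h
    · rw [(sh_high y (ha (Nat.lt_succ_self j)) x h).1, (sh_high y (ha (Nat.lt_succ_self j)) x h).2]
      ring
    · have h2 := sh_low y (ha (Nat.lt_succ_self k)) x (h.trans h1)
      rw [h2.1, h2.2]
      ring
  obtain ⟨k, hk⟩ := lemU τ C hτ hC hq hBL
    (fun k => cr (1 - shB y (a k) (a (k + 1)) - shC y (a k) (a (k + 1))))
    (fun k => sh_norm _ _ _) (fun i j hij => by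
      rcases lt_or_gt_of_ne hij with h | h
      · exact hdisj i j h
      · show cr (1 - shB y (a i) (a (i + 1)) - shC y (a i) (a (i + 1))) *
          cr (1 - shB y (a j) (a (j + 1)) - shC y (a j) (a (j + 1))) = 0
        rw [mul_comm]
        exact hdisj j i h) ε hε
  refine ⟨shB y (a k) (a (k + 1)), shC y (a k) (a (k + 1)), shB_bd _ _ _, shC_bd _ _ _,
    sh_mul _ _ _, fun x hx => ?_, fun x hx => ?_, hk.le⟩
  · exact (sh_high y (ha (Nat.lt_succ_self k)) x ((ha1 _).trans hx)).1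
  · exact (sh_low y (ha (Nat.lt_succ_self k)) x (hx.trans (ha0 k))).2

theorem lemPL (τ : C(X, ℂ) →ₗ[ℂ] Y) (C : ℝ)
    (hτ : ∀ f g, ‖τ (f * g)‖ ≤ C * ‖f‖ * ‖τ g‖) (hC : 0 < C)
    {q : ℝ} (hq : 0 < q) (hBL : BL Y q)
    (hA : ∀ (x₀ : X) (ε : ℝ), 0 < ε → ∃ r : ℝ, 0 < r ∧
      ∀ g : C(X, ℂ), ‖g‖ ≤ 1 → (∀ x, r ≤ dist x x₀ → g x = 0) → ‖τ g‖ ≤ ε)
    (ε : ℝ) (hε : 0 < ε) :
    ∃ (s : Finset X) (φ : X → C(X, ℝ)), (∀ i ∈ s, ∀ x, 0 ≤ φ i x ∧ φ i x ≤ 1) ∧
      (∀ i ∈ s, ∀ j ∈ s, i ≠ j → φ i * φ j = 0) ∧ ‖τ (cr (1 - ∑ i ∈ s, φ i))‖ ≤ ε ∧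
      ∀ i ∈ s, ∀ g : C(X, ℂ), ‖g‖ ≤ 1 → ‖τ (g * cr (φ i))‖ ≤ ε := by
  classical
  choose r hr0 hr using fun x₀ => hA x₀ ε hε
  obtain ⟨t, -, ht⟩ := isCompact_univ.elim_nhds_subcover (fun y : X => Metric.ball y (r y / 2))
    (fun y _ => Metric.ball_mem_nhds y (half_pos (hr0 y)))
  set ε' := ε / (t.card * C + 1) with hε'
  have hε'0 : 0 < ε' := by positivity
  choose b c hb hc hbc hbs hcs hbcε using
    fun y => lemShell τ C hτ hC.le hq hBL y (r y) (hr0 y) ε' hε'0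
  have hR : ∀ (s : Finset X) (x : X), 0 ≤ (∏ z ∈ s, c z) x ∧ (∏ z ∈ s, c z) x ≤ 1 := by
    intro s x
    rw [ContinuousMap.prod_apply]
    exact ⟨Finset.prod_nonneg fun i _ => (hc i x).1,
      Finset.prod_le_one (fun i _ => (hc i x).1) fun i _ => (hc i x).2⟩
  have key : ∀ s : Finset X, ∃ φ : X → C(X, ℝ), (∀ i ∈ s, ∀ x, 0 ≤ φ i x ∧ φ i x ≤ 1) ∧
      (∀ i ∈ s, ∀ x, r i ≤ dist x i → φ i x = 0) ∧
      (∀ i ∈ s, ∀ j ∈ s, i ≠ j → φ i * φ j = 0) ∧ (∀ i ∈ s, φ i * ∏ z ∈ s, c z = 0) ∧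
      ‖τ (cr (1 - ∑ i ∈ s, φ i - ∏ z ∈ s, c z))‖ ≤ s.card * (C * ε') := by
    intro s
    induction s using Finset.induction_on with
    | empty =>
      refine ⟨fun _ => 0, by simp, by simp, by simp, by simp, ?_⟩
      simp
    | insert y s hy ih =>
      obtain ⟨φ, h1, h2, h3, h4, h5⟩ := ih
      have hne : ∀ i ∈ s, i ≠ y := fun i hi h => hy (h ▸ hi)
      have hupd : ∀ i ∈ s, Function.update φ y (b y * ∏ z ∈ s, c z) i = φ i := fun i hi =>
        Function.update_of_ne (hne i hi) _ _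
      have hupdy : Function.update φ y (b y * ∏ z ∈ s, c z) y = b y * ∏ z ∈ s, c z :=
        Function.update_self _ _ _
      refine ⟨Function.update φ y (b y * ∏ z ∈ s, c z), ?_, ?_, ?_, ?_, ?_⟩
      · intro i hi x
        rcases Finset.mem_insert.1 hi with rfl | hi
        · rw [hupdy, ContinuousMap.mul_apply]
          have := hb i x
          have := hR s x
          exact ⟨mul_nonneg (hb i x).1 (hR s x).1, mul_le_one₀ (hb i x).2 (hR s x).1 (hR s x).2⟩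
        · rw [hupd i hi]
          exact h1 i hi x
      · intro i hi x hx
        rcases Finset.mem_insert.1 hi with rfl | hi
        · rw [hupdy, ContinuousMap.mul_apply, hbs i x hx, zero_mul]
        · rw [hupd i hi]
          exact h2 i hi x hx
      · intro i hi j hj hij
        rcases Finset.mem_insert.1 hi with hi' | hi'
        · rcases Finset.mem_insert.1 hj with hj' | hj'
          · exact absurd (hi'.trans hj'.symm) hij
          · rw [hi', hupdy, hupd j hj', mul_assoc, mul_comm _ (φ j), h4 j hj', mul_zero]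
        · rcases Finset.mem_insert.1 hj with hj' | hj'
          · rw [hj', hupdy, hupd i hi', mul_left_comm, h4 i hi', mul_zero]
          · rw [hupd i hi', hupd j hj']
            exact h3 i hi' j hj' hij
      · intro i hi
        rw [Finset.prod_insert hy]
        rcases Finset.mem_insert.1 hi with rfl | hi
        · rw [hupdy]
          have : b i * (∏ z ∈ s, c z) * (c i * ∏ z ∈ s, c z)
              = (b i * c i) * ((∏ z ∈ s, c z) * ∏ z ∈ s, c z) := by ring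
          rw [this, hbc, zero_mul]
        · rw [hupd i hi, mul_left_comm, h4 i hi, mul_zero]
      · rw [Finset.sum_insert hy, Finset.prod_insert hy, hupdy, Finset.sum_congr rfl hupd,
          Finset.card_insert_of_notMem hy]
        have h6 : cr (1 - (b y * ∏ z ∈ s, c z + ∑ i ∈ s, φ i) - c y * ∏ z ∈ s, c z)
            = cr (1 - ∑ i ∈ s, φ i - ∏ z ∈ s, c z) + cr (∏ z ∈ s, c z) * cr (1 - b y - c y) := by
          rw [← map_mul, ← map_add]
          congr 1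
          ring
        rw [h6, map_add]
        refine (norm_add_le _ _).trans ?_
        have h7 : ‖τ (cr (∏ z ∈ s, c z) * cr (1 - b y - c y))‖ ≤ C * ε' := by
          refine (hτ _ _).trans ?_
          have h8 : ‖cr (∏ z ∈ s, c z)‖ ≤ 1 := cr_norm_le _ fun x => by
            rw [abs_of_nonneg (hR s x).1]
            exact (hR s x).2
          calc C * ‖cr (∏ z ∈ s, c z)‖ * ‖τ (cr (1 - b y - c y))‖ ≤ C * 1 * ε' :=
                mul_le_mul (mul_le_mul_of_nonneg_left h8 hC.le) (hbcε y) (norm_nonneg _)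
                  (by positivity)
            _ = C * ε' := by ring
        push_cast
        linarith
  obtain ⟨φ, h1, h2, h3, -, h5⟩ := key t
  refine ⟨t, φ, h1, h3, ?_, ?_⟩
  · have h6 : ∏ z ∈ t, c z = 0 := by
      ext x
      rw [ContinuousMap.prod_apply, ContinuousMap.zero_apply]
      have hx := ht (Set.mem_univ x)
      simp only [Set.mem_iUnion, Metric.mem_ball] at hx
      obtain ⟨y, hy, hxy⟩ := hx
      exact Finset.prod_eq_zero hy (hcs y x hxy.le)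
    rw [h6, sub_zero] at h5
    refine h5.trans ?_
    have h7 : ε' * (t.card * C + 1) = ε := by
      rw [hε']
      field_simp
    nlinarith
  · intro i hi g hg
    refine hr i _ ?_ fun x hx => by rw [ContinuousMap.mul_apply, cr_apply, h2 i hi x hx]; simp
    refine (norm_mul_le _ _).trans ?_
    have h8 : ‖cr (φ i)‖ ≤ 1 := cr_norm_le _ fun x => by
      rw [abs_of_nonneg (h1 i hi x).1]
      exact (h1 i hi x).2
    exact mul_le_one₀ hg (norm_nonneg _) h8

theorem signs {ι E : Type*} (F : Finset E) (a : ι → E → ℂ) (s : Finset ι) :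
    ∃ σ : ι → ℝ, (∀ i, σ i = 1 ∨ σ i = -1) ∧
      ∑ e ∈ F, ‖∑ i ∈ s, (σ i : ℂ) * a i e‖ ^ 2 ≤ ∑ i ∈ s, ∑ e ∈ F, ‖a i e‖ ^ 2 := by
  classical
  induction s using Finset.induction_on with
  | empty => exact ⟨fun _ => 1, fun _ => Or.inl rfl, by simp⟩
  | insert y s hy ih =>
    obtain ⟨σ, hσ, h⟩ := ih
    have hpar : ∑ e ∈ F, ‖a y e + ∑ i ∈ s, (σ i : ℂ) * a i e‖ ^ 2
        + ∑ e ∈ F, ‖-a y e + ∑ i ∈ s, (σ i : ℂ) * a i e‖ ^ 2
        = 2 * (∑ e ∈ F, ‖a y e‖ ^ 2 + ∑ e ∈ F, ‖∑ i ∈ s, (σ i : ℂ) * a i e‖ ^ 2) := by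
      rw [← Finset.sum_add_distrib, ← Finset.sum_add_distrib, Finset.mul_sum]
      refine Finset.sum_congr rfl fun e _ => ?_
      have := parallelogram_law_with_norm ℂ (∑ i ∈ s, (σ i : ℂ) * a i e) (a y e)
      rw [add_comm (a y e), neg_add_eq_sub]
      nlinarith [this]
    have hor : ∃ t : ℝ, (t = 1 ∨ t = -1) ∧
        ∑ e ∈ F, ‖(t : ℂ) * a y e + ∑ i ∈ s, (σ i : ℂ) * a i e‖ ^ 2
          ≤ ∑ e ∈ F, ‖a y e‖ ^ 2 + ∑ e ∈ F, ‖∑ i ∈ s, (σ i : ℂ) * a i e‖ ^ 2 := by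
      by_cases h1 : ∑ e ∈ F, ‖a y e + ∑ i ∈ s, (σ i : ℂ) * a i e‖ ^ 2
          ≤ ∑ e ∈ F, ‖a y e‖ ^ 2 + ∑ e ∈ F, ‖∑ i ∈ s, (σ i : ℂ) * a i e‖ ^ 2
      · exact ⟨1, Or.inl rfl, by simpa using h1⟩
      · refine ⟨-1, Or.inr rfl, ?_⟩
        have h2 : ∀ e, ((-1 : ℝ) : ℂ) * a y e = -a y e := fun e => by push_cast; ring
        simp_rw [h2]
        linarith
    obtain ⟨t, ht, ht2⟩ := hor
    refine ⟨Function.update σ y t, fun i => ?_, ?_⟩
    · by_cases hi : i = y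
      · subst hi
        rw [Function.update_self]
        exact ht
      · rw [Function.update_of_ne hi]
        exact hσ i
    · rw [Finset.sum_insert hy]
      have h3 : ∀ e, ∑ i ∈ insert y s, ((Function.update σ y t i : ℝ) : ℂ) * a i e
          = (t : ℂ) * a y e + ∑ i ∈ s, (σ i : ℂ) * a i e := by
        intro e
        rw [Finset.sum_insert hy, Function.update_self]
        congr 1
        refine Finset.sum_congr rfl fun i hi => ?_
        rw [Function.update_of_ne (fun h : i = y => hy (h ▸ hi))]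
      simp_rw [h3]
      linarith

theorem lemS (τ : C(X, ℂ) →ₗ[ℂ] Y) (C : ℝ)
    (hτ : ∀ f g, ‖τ (f * g)‖ ≤ C * ‖f‖ * ‖τ g‖) (hC : 0 < C)
    {q : ℝ} (hq : 0 < q) (hBL : BL Y q)
    (hA : ∀ (x₀ : X) (ε : ℝ), 0 < ε → ∃ r : ℝ, 0 < r ∧
      ∀ g : C(X, ℂ), ‖g‖ ≤ 1 → (∀ x, r ≤ dist x x₀ → g x = 0) → ‖τ g‖ ≤ ε)
    (w : C(X, ℂ)) (hw : ‖w‖ ≤ 1) (F : Finset (Y →L[ℂ] ℂ)) (ε : ℝ) (hε : 0 < ε) :
    ∃ u : C(X, ℝ), (∀ x, |u x| ≤ 1) ∧ (∀ e ∈ F, ‖e (τ (w * cr u))‖ ≤ ε) ∧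
      ‖τ (1 - cr u * cr u)‖ ≤ ε := by
  set B := C * ‖τ 1‖ with hB
  have hB0 : 0 ≤ B := by positivity
  set Q := ∑ e ∈ F, ‖e‖ ^ 2 with hQ
  have hQ0 : 0 ≤ Q := Finset.sum_nonneg fun _ _ => by positivity
  obtain ⟨s, φ, h1, h2, h3, h4⟩ := lemPL τ C hτ hC hq hBL hA
    (min (ε / (2 * C)) (ε ^ 2 / (B * Q + 1))) (by positivity)
  set ε₁ := min (ε / (2 * C)) (ε ^ 2 / (B * Q + 1)) with hε₁
  have hε₁0 : 0 < ε₁ := by positivity
  obtain ⟨σ, hσ, hσ2⟩ := signs F (fun i (e : Y →L[ℂ] ℂ) => e (τ (w * cr (φ i)))) s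
  have hσn : ∀ i, ‖(σ i : ℂ)‖ ≤ 1 := fun i => by
    rcases hσ i with h | h <;> rw [h] <;> simp
  have hφn : ∀ i ∈ s, ‖cr (φ i)‖ ≤ 1 := fun i hi => cr_norm_le _ fun x => by
    rw [abs_of_nonneg (h1 i hi x).1]
    exact (h1 i hi x).2
  have hpt : ∀ x, (∀ i ∈ s, φ i x = 0) ∨ ∃ i ∈ s, ∀ j ∈ s, j ≠ i → φ j x = 0 :=
    disj_point s φ h2
  have hcr : cr (∑ i ∈ s, (ContinuousMap.const X (σ i)) * φ i)
      = ∑ i ∈ s, (σ i : ℂ) • cr (φ i) := by
    rw [map_sum]
    refine Finset.sum_congr rfl fun i _ => ?_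
    ext x
    simp [cr_apply]
  refine ⟨∑ i ∈ s, (ContinuousMap.const X (σ i)) * φ i, ?_, ?_, ?_⟩
  · intro x
    rw [ContinuousMap.sum_apply]
    simp only [ContinuousMap.mul_apply, ContinuousMap.const_apply]
    rcases hpt x with h | ⟨i, hi, h⟩
    · rw [Finset.sum_eq_zero (fun i hi => by rw [h i hi, mul_zero])]
      simp
    · rw [Finset.sum_eq_single_of_mem i hi (fun j hj hji => by rw [h j hj hji, mul_zero]), abs_mul]
      have h5 : |σ i| = 1 := by rcases hσ i with h | h <;> rw [h] <;> simp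
      rw [h5, one_mul, abs_of_nonneg (h1 i hi x).1]
      exact (h1 i hi x).2
  · intro e he
    have h5 : e (τ (w * cr (∑ i ∈ s, (ContinuousMap.const X (σ i)) * φ i)))
        = ∑ i ∈ s, (σ i : ℂ) * e (τ (w * cr (φ i))) := by
      rw [hcr, Finset.mul_sum, map_sum, map_sum]
      refine Finset.sum_congr rfl fun i _ => ?_
      rw [mul_smul_comm, map_smul, map_smul, smul_eq_mul]
    rw [h5]
    have h6 : ‖∑ i ∈ s, (σ i : ℂ) * e (τ (w * cr (φ i)))‖ ^ 2
        ≤ ∑ i ∈ s, ∑ e ∈ F, ‖e (τ (w * cr (φ i)))‖ ^ 2 :=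
      (Finset.single_le_sum (f := fun e : Y →L[ℂ] ℂ =>
        ‖∑ i ∈ s, (σ i : ℂ) * e (τ (w * cr (φ i)))‖ ^ 2) (fun _ _ => by positivity) he).trans hσ2
    rw [Finset.sum_comm] at h6
    have h7 : ∀ e ∈ F, ∑ i ∈ s, ‖e (τ (w * cr (φ i)))‖ ^ 2 ≤ ε₁ * B * ‖e‖ ^ 2 := by
      intro e _
      have h8 := lemW τ C hτ hC.le s (fun i => w * cr (φ i))
        (fun i hi => (norm_mul_le _ _).trans (mul_le_one₀ hw (norm_nonneg _) (hφn i hi)))
        (fun i hi j hj hij => by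
          have : w * cr (φ i) * (w * cr (φ j)) = w * w * cr (φ i * φ j) := by
            rw [map_mul]; ring
          rw [this, h2 i hi j hj hij, map_zero, mul_zero]) e
      calc ∑ i ∈ s, ‖e (τ (w * cr (φ i)))‖ ^ 2
          ≤ ∑ i ∈ s, (‖e‖ * ε₁) * ‖e (τ (w * cr (φ i)))‖ := by
            refine Finset.sum_le_sum fun i hi => ?_
            rw [sq]
            refine mul_le_mul_of_nonneg_right ?_ (norm_nonneg _)
            exact (e.le_opNorm _).trans (mul_le_mul_of_nonneg_left (h4 i hi w hw) (norm_nonneg _))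
        _ = (‖e‖ * ε₁) * ∑ i ∈ s, ‖e (τ (w * cr (φ i)))‖ := by rw [Finset.mul_sum]
        _ ≤ (‖e‖ * ε₁) * (‖e‖ * B) := mul_le_mul_of_nonneg_left h8 (by positivity)
        _ = ε₁ * B * ‖e‖ ^ 2 := by ring
    have h9 : ‖∑ i ∈ s, (σ i : ℂ) * e (τ (w * cr (φ i)))‖ ^ 2 ≤ ε ^ 2 := by
      refine h6.trans ((Finset.sum_le_sum h7).trans ?_)
      rw [← Finset.mul_sum]
      have h10 : ε₁ * (B * Q + 1) ≤ ε ^ 2 := by
        have : ε₁ ≤ ε ^ 2 / (B * Q + 1) := min_le_right _ _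
        rwa [le_div_iff₀ (by positivity)] at this
      nlinarith
    exact (sq_le_sq₀ (norm_nonneg _) hε.le).1 h9
  · have h5 : (1 : C(X, ℂ)) - cr (∑ i ∈ s, (ContinuousMap.const X (σ i)) * φ i) *
        cr (∑ i ∈ s, (ContinuousMap.const X (σ i)) * φ i)
        = (1 + cr (∑ i ∈ s, φ i)) * cr (1 - ∑ i ∈ s, φ i) := by
      have h6 : (∑ i ∈ s, (ContinuousMap.const X (σ i)) * φ i) *
          (∑ i ∈ s, (ContinuousMap.const X (σ i)) * φ i) = (∑ i ∈ s, φ i) * ∑ i ∈ s, φ i := by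
        ext x
        simp only [ContinuousMap.mul_apply, ContinuousMap.sum_apply, ContinuousMap.const_apply]
        rcases hpt x with h | ⟨i, hi, h⟩
        · rw [Finset.sum_eq_zero (fun i hi => by rw [h i hi, mul_zero]),
            Finset.sum_eq_zero (fun i hi => by rw [h i hi])]
        · rw [Finset.sum_eq_single_of_mem i hi (fun j hj hji => by rw [h j hj hji, mul_zero]),
            Finset.sum_eq_single_of_mem i hi (fun j hj hji => by rw [h j hj hji])]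
          rcases hσ i with h | h <;> rw [h] <;> ring
      rw [← map_mul, h6, map_sub, map_mul, map_one]
      ring
    rw [h5]
    have h7 : ‖cr (∑ i ∈ s, φ i)‖ ≤ 1 := cr_norm_le _ fun x => by
      rw [ContinuousMap.sum_apply]
      rcases hpt x with h | ⟨i, hi, h⟩
      · rw [Finset.sum_eq_zero (fun i hi => by rw [h i hi])]
        simp
      · rw [Finset.sum_eq_single_of_mem i hi (fun j hj hji => by rw [h j hj hji]),
          abs_of_nonneg (h1 i hi x).1]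
        exact (h1 i hi x).2
    have h8 : ‖(1 : C(X, ℂ)) + cr (∑ i ∈ s, φ i)‖ ≤ 2 := by
      refine (norm_add_le _ _).trans ?_
      have : ‖(1 : C(X, ℂ))‖ ≤ 1 := by
        rw [ContinuousMap.norm_le _ zero_le_one]
        intro x
        simp
      linarith
    refine (hτ _ _).trans ?_
    have h9 : ε₁ * (2 * C) ≤ ε := by
      have : ε₁ ≤ ε / (2 * C) := min_le_left _ _
      rwa [le_div_iff₀ (by positivity)] at this
    calc C * ‖(1 : C(X, ℂ)) + cr (∑ i ∈ s, φ i)‖ * ‖τ (cr (1 - ∑ i ∈ s, φ i))‖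
        ≤ C * 2 * ε₁ := mul_le_mul (mul_le_mul_of_nonneg_left h8 hC.le) h3 (norm_nonneg _)
          (by positivity)
      _ ≤ ε := by linarith

end H626Core
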