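import Pool.Agent.H626R5.Core2

/-!
# The joint eigenvector theorem
-/

noncomputable section

namespace H626Core

open Filter Topology

variable {X : Type*} [MetricSpace X] [CompactSpace X]
variable {Y : Type*} [NormedAddCommGroup Y] [NormedSpace ℂ Y]

/-- The unimodular function `i s/|s|`. -/
def phase (s : C(X, ℂ)) (hs : ∀ x, 1 ≤ ‖s x‖) : C(X, ℂ) :=
  ⟨fun x => Complex.I * (s x / (‖s x‖ : ℂ)), by
    refine continuous_const.mul (s.continuous.div ?_ fun x => ?_)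
    · exact Complex.continuous_ofReal.comp s.continuous.norm
    · have := hs x
      exact_mod_cast (by linarith : (0 : ℝ) < ‖s x‖).ne'⟩

omit [CompactSpace X] in
theorem phase_norm (s : C(X, ℂ)) (hs : ∀ x, 1 ≤ ‖s x‖) (x : X) : ‖phase s hs x‖ = 1 := by
  show ‖Complex.I * (s x / (‖s x‖ : ℂ))‖ = 1
  have h := hs x
  rw [norm_mul, Complex.norm_I, one_mul, norm_div, Complex.norm_real, norm_norm,
    div_self (by linarith)]

theorem alg_step (z : ℂ) (hz : 1 ≤ ‖z‖) (u : ℝ) :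
    (starRingEnd ℂ) (z + Complex.I * (z / (‖z‖ : ℂ)) * u) * (z + Complex.I * (z / (‖z‖ : ℂ)) * u)
      = (starRingEnd ℂ) z * z + u * u := by
  have h1 : (starRingEnd ℂ) z * z = (‖z‖ : ℂ) ^ 2 := Complex.conj_mul' z
  have h2 : (‖z‖ : ℂ) ≠ 0 := by exact_mod_cast (by linarith : (0 : ℝ) < ‖z‖).ne'
  simp only [map_add, map_mul, map_div₀, Complex.conj_I, Complex.conj_ofReal]
  have h3 : ((starRingEnd ℂ) z + -Complex.I * ((starRingEnd ℂ) z / (‖z‖ : ℂ)) * u) *
      (z + Complex.I * (z / (‖z‖ : ℂ)) * u)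
      = (starRingEnd ℂ) z * z - (Complex.I ^ 2) * ((starRingEnd ℂ) z * z) / (‖z‖ : ℂ) ^ 2 * u ^ 2 := by
    field_simp
    ring
  rw [h3, h1, Complex.I_sq]
  field_simp
  ring

theorem lemM (τ : C(X, ℂ) →ₗ[ℂ] Y) (C : ℝ)
    (hτ : ∀ f g, ‖τ (f * g)‖ ≤ C * ‖f‖ * ‖τ g‖) (hC : 0 < C)
    {q : ℝ} (hq : 0 < q) (hBL : BL Y q)
    (hA : ∀ (x₀ : X) (ε : ℝ), 0 < ε → ∃ r : ℝ, 0 < r ∧
      ∀ g : C(X, ℂ), ‖g‖ ≤ 1 → (∀ x, r ≤ dist x x₀ → g x = 0) → ‖τ g‖ ≤ ε)
    (hξ : τ 1 ≠ 0) :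
    ∃ c₂ : ℝ, ∀ K : ℕ, ∃ s : C(X, ℂ), (∀ x, 1 ≤ ‖s x‖) ∧ (∀ x, ‖s x‖ ^ 2 ≤ K + 1) ∧
      ‖τ (star s * s) - ((K : ℂ) + 1) • τ 1‖ ≤ K * (‖τ 1‖ / 2) ∧
      K * ((‖τ 1‖ / (2 * C)) ^ q / 2) ≤ ‖τ s‖ ^ q ∧ ‖τ s‖ ^ q ≤ (K + 1) * c₂ := by
  have hξ0 : 0 < ‖τ 1‖ := norm_pos_iff.2 hξ
  set B := C * ‖τ 1‖ with hB
  have hB0 : 0 < B := by positivity
  set c₀ := (‖τ 1‖ / (2 * C)) ^ q with hc₀
  have hc₀0 : 0 < c₀ := Real.rpow_pos_of_pos (by positivity) q
  have hBq : 0 ≤ B ^ q := Real.rpow_nonneg hB0.le q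
  have hξq : 0 ≤ ‖τ 1‖ ^ q := Real.rpow_nonneg hξ0.le q
  refine ⟨‖τ 1‖ ^ q + B ^ q + c₀ / 2, fun K => ?_⟩
  induction K with
  | zero =>
    refine ⟨1, fun x => by simp, fun x => by simp, ?_, ?_, ?_⟩
    · simp
    · simp only [Nat.cast_zero, zero_mul]
      exact hξq
    · simp only [Nat.cast_zero, zero_add, one_mul]
      linarith
  | succ K ih =>
    obtain ⟨s, h1, h2, h3, h4, h5⟩ := ih
    obtain ⟨F, ε, hε, hF⟩ := hBL (τ s) B (c₀ / 2) (by positivity)
    have hw : ‖phase s h1‖ ≤ 1 := by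
      rw [ContinuousMap.norm_le _ zero_le_one]
      exact fun x => (phase_norm s h1 x).le
    obtain ⟨u, hu1, hu2, hu3⟩ := lemS τ C hτ hC hq hBL hA (phase s h1) hw F
      (min ε (‖τ 1‖ / 2)) (by positivity)
    have hcu : ‖cr u‖ ≤ 1 := cr_norm_le u hu1
    have hxup : ‖τ (phase s h1 * cr u)‖ ≤ B :=
      tau_le τ C hτ hC.le _ ((norm_mul_le _ _).trans (mul_le_one₀ hw (norm_nonneg _) hcu))
    have hxlow : ‖τ 1‖ / (2 * C) ≤ ‖τ (phase s h1 * cr u)‖ := by
      have h6 : cr u * cr u = (star (phase s h1) * cr u) * (phase s h1 * cr u) := by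
        ext x
        have h7 : star (phase s h1 x) * phase s h1 x = 1 := by
          have : (starRingEnd ℂ) (phase s h1 x) * phase s h1 x = (‖phase s h1 x‖ : ℂ) ^ 2 :=
            Complex.conj_mul' _
          rw [phase_norm] at this
          simpa using this
        simp only [ContinuousMap.mul_apply, ContinuousMap.star_apply]
        linear_combination (-(cr u x * cr u x)) * h7
      have h8 : ‖τ (cr u * cr u)‖ ≤ C * ‖τ (phase s h1 * cr u)‖ := by
        rw [h6]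
        refine (hτ _ _).trans ?_
        refine mul_le_mul_of_nonneg_right ?_ (norm_nonneg _)
        have h9 : ‖star (phase s h1) * cr u‖ ≤ 1 := by
          refine (norm_mul_le _ _).trans (mul_le_one₀ ?_ (norm_nonneg _) hcu)
          rw [norm_star]
          exact hw
        nlinarith
      have h10 : ‖τ 1‖ - ‖τ (cr u * cr u)‖ ≤ ‖τ 1‖ / 2 := by
        have := norm_sub_norm_le (τ 1) (τ (cr u * cr u))
        rw [← map_sub] at this
        exact this.trans (hu3.trans (min_le_right _ _))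
      rw [div_le_iff₀ (by positivity)]
      linarith
    have hbl := hF (τ (phase s h1 * cr u)) hxup (fun e he => (hu2 e he).trans (min_le_left _ _))
    have hpt : ∀ x, (starRingEnd ℂ) ((s + phase s h1 * cr u) x) * (s + phase s h1 * cr u) x
        = (starRingEnd ℂ) (s x) * s x + (u x : ℂ) * (u x : ℂ) := fun x =>
      alg_step (s x) (h1 x) (u x)
    have hnsq : ∀ x, ‖(s + phase s h1 * cr u) x‖ ^ 2 = ‖s x‖ ^ 2 + u x * u x := by
      intro x
      have h6 := hpt x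
      rw [Complex.conj_mul', Complex.conj_mul'] at h6
      exact_mod_cast h6
    refine ⟨s + phase s h1 * cr u, fun x => ?_, fun x => ?_, ?_, ?_, ?_⟩
    · have h6 := hnsq x
      have h7 := h1 x
      have h8 : 1 ≤ ‖s x‖ ^ 2 := by nlinarith
      have h9 : 0 ≤ u x * u x := mul_self_nonneg _
      by_contra h10
      push Not at h10
      have : ‖(s + phase s h1 * cr u) x‖ ^ 2 < 1 := by
        have := norm_nonneg ((s + phase s h1 * cr u) x)
        nlinarith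
      linarith
    · rw [hnsq x]
      have h6 := h2 x
      have h7 : u x * u x ≤ 1 := by
        have := abs_le.1 (hu1 x)
        nlinarith [this.1, this.2]
      push_cast
      linarith
    · have h6 : star (s + phase s h1 * cr u) * (s + phase s h1 * cr u)
          = star s * s + cr u * cr u := by
        ext x
        exact hpt x
      have h7 : τ (star (s + phase s h1 * cr u) * (s + phase s h1 * cr u))
          - (((K + 1 : ℕ) : ℂ) + 1) • τ 1
          = (τ (star s * s) - ((K : ℂ) + 1) • τ 1) - τ (1 - cr u * cr u) := by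
        rw [h6, map_add, map_sub]
        push_cast
        module
      rw [h7]
      refine (norm_sub_le _ _).trans ?_
      have := hu3.trans (min_le_right _ _)
      push_cast
      linarith
    · rw [map_add]
      have h6 := (abs_le.1 hbl).1
      have h7 : c₀ ≤ ‖τ (phase s h1 * cr u)‖ ^ q :=
        Real.rpow_le_rpow (by positivity) hxlow hq.le
      push_cast
      linarith
    · rw [map_add]
      have h6 := (abs_le.1 hbl).2
      have h7 : ‖τ (phase s h1 * cr u)‖ ^ q ≤ B ^ q := Real.rpow_le_rpow (norm_nonneg _) hxup hq.le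
      push_cast
      linarith

/-- **Joint eigenvectors.**  Let `Y` be a complex Banach space with the Brezis-Lieb property of
exponent `q ≠ 2`.  Every nonzero bounded (not necessarily unital) homomorphism from `C(X)` into
the bounded operators on `Y` has a joint eigenvector, whose eigencharacter is the evaluation at a
point. -/
theorem exists_eigenvector [CompleteSpace Y] {q : ℝ} (hq : 0 < q) (hq2 : q ≠ 2) (hBL : BL Y q)
    (T : C(X, ℂ) →ₗ[ℂ] (Y →L[ℂ] Y)) (hmul : ∀ f g, T (f * g) = T f * T g)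
    (C : ℝ) (hbd : ∀ f, ‖T f‖ ≤ C * ‖f‖) (h1 : T 1 ≠ 0) :
    ∃ (x₀ : X) (η : Y), η ≠ 0 ∧ ∀ f : C(X, ℂ), T f η = f x₀ • η := by
  by_contra hno
  -- a fixed vector
  obtain ⟨ζ, hζ⟩ : ∃ ζ, T 1 ζ ≠ 0 := by
    by_contra h
    push Not at h
    exact h1 (ContinuousLinearMap.ext h)
  have hC : 0 < C := by
    by_contra h
    push Not at h
    have h2 := hbd 1
    have h3 : ‖T 1‖ ≤ 0 := h2.trans (mul_nonpos_of_nonpos_of_nonneg h (norm_nonneg _))
    exact h1 (norm_le_zero_iff.1 h3)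
  let τ : C(X, ℂ) →ₗ[ℂ] Y :=
    { toFun := fun f => T f (T 1 ζ)
      map_add' := fun f g => by rw [map_add]; rfl
      map_smul' := fun c f => by rw [map_smul]; rfl }
  have hτξ : ∀ f, τ f = T f (T 1 ζ) := fun f => rfl
  have hτ : ∀ f g, ‖τ (f * g)‖ ≤ C * ‖f‖ * ‖τ g‖ := by
    intro f g
    rw [hτξ, hτξ, hmul]
    exact ((T f).le_opNorm _).trans (mul_le_mul_of_nonneg_right (hbd f) (norm_nonneg _))
  have hτ1 : τ 1 ≠ 0 := by
    rw [hτξ]
    have : T 1 (T 1 ζ) = T 1 ζ := by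
      have h2 := hmul 1 1
      rw [mul_one] at h2
      exact (congrArg (fun S : Y →L[ℂ] Y => S ζ) h2).symm
    rw [this]
    exact hζ
  have hξ0 : 0 < ‖τ 1‖ := norm_pos_iff.2 hτ1
  obtain ⟨c₂, hM⟩ := lemM τ C hτ hC hq hBL
    (fun x₀ ε hε => lemA' T C hC hmul hbd τ (T 1 ζ) hτξ hτ hq hBL hno x₀ ε hε) hτ1
  set c₀ := (‖τ 1‖ / (2 * C)) ^ q with hc₀
  have hc₀0 : 0 < c₀ := Real.rpow_pos_of_pos (by positivity) q
  -- the two-sided comparison
  have hcmp : ∀ K : ℕ, ((K : ℝ) * (c₀ / 2) ≤ (C * ‖τ 1‖) ^ q * ((K : ℝ) + 1) ^ (q / 2)) ∧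
      (((K : ℝ) + 1) ^ (q / 2) * c₀ ≤ ((K : ℝ) + 1) * c₂) := by
    intro K
    obtain ⟨s, h2, h3, h4, h5, h6⟩ := hM K
    have hK : (0 : ℝ) < (K : ℝ) + 1 := by positivity
    have hsn : ‖s‖ ≤ Real.sqrt ((K : ℝ) + 1) := by
      rw [ContinuousMap.norm_le _ (Real.sqrt_nonneg _)]
      intro x
      exact Real.le_sqrt_of_sq_le (h3 x)
    have hpow : (Real.sqrt ((K : ℝ) + 1)) ^ q = ((K : ℝ) + 1) ^ (q / 2) := by
      rw [Real.sqrt_eq_rpow, ← Real.rpow_mul hK.le]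
      congr 1
      ring
    constructor
    · refine h5.trans ?_
      have h7 : ‖τ s‖ ≤ (C * ‖τ 1‖) * Real.sqrt ((K : ℝ) + 1) := by
        have := hτ s 1
        rw [mul_one] at this
        refine this.trans ?_
        nlinarith [mul_le_mul_of_nonneg_left hsn (mul_nonneg hC.le hξ0.le)]
      calc ‖τ s‖ ^ q ≤ ((C * ‖τ 1‖) * Real.sqrt ((K : ℝ) + 1)) ^ q :=
            Real.rpow_le_rpow (norm_nonneg _) h7 hq.le
        _ = (C * ‖τ 1‖) ^ q * ((K : ℝ) + 1) ^ (q / 2) := by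
            rw [Real.mul_rpow (by positivity) (Real.sqrt_nonneg _), hpow]
    · refine le_trans ?_ h6
      have h7 : ((K : ℝ) + 1) * (‖τ 1‖ / 2) ≤ C * Real.sqrt ((K : ℝ) + 1) * ‖τ s‖ := by
        have h8 : ‖τ (star s * s)‖ ≤ C * ‖star s‖ * ‖τ s‖ := hτ _ _
        rw [norm_star] at h8
        have h9 : ((K : ℝ) + 1) * ‖τ 1‖ - ‖τ (star s * s)‖ ≤ K * (‖τ 1‖ / 2) := by
          refine le_trans ?_ h4
          have h10 : ((K : ℝ) + 1) * ‖τ 1‖ = ‖((K : ℂ) + 1) • τ 1‖ := by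
            rw [norm_smul]
            congr 1
            have : ((K : ℂ) + 1) = (((K : ℝ) + 1 : ℝ) : ℂ) := by push_cast; rfl
            rw [this, Complex.norm_real, Real.norm_of_nonneg hK.le]
          rw [h10, norm_sub_rev]
          exact norm_sub_norm_le _ _
        have h11 : C * ‖s‖ * ‖τ s‖ ≤ C * Real.sqrt ((K : ℝ) + 1) * ‖τ s‖ :=
          mul_le_mul_of_nonneg_right (mul_le_mul_of_nonneg_left hsn hC.le) (norm_nonneg _)
        nlinarith
      have h8 : Real.sqrt ((K : ℝ) + 1) * (‖τ 1‖ / (2 * C)) ≤ ‖τ s‖ := by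
        have h9 : Real.sqrt ((K : ℝ) + 1) * Real.sqrt ((K : ℝ) + 1) = (K : ℝ) + 1 :=
          Real.mul_self_sqrt hK.le
        have h10 : 0 < Real.sqrt ((K : ℝ) + 1) := Real.sqrt_pos.2 hK
        have h11 : Real.sqrt ((K : ℝ) + 1) * (Real.sqrt ((K : ℝ) + 1) * (‖τ 1‖ / 2))
            ≤ Real.sqrt ((K : ℝ) + 1) * (C * ‖τ s‖) := by
          rw [← mul_assoc, h9]
          linarith
        have h12 := le_of_mul_le_mul_left h11 h10
        have h13 : Real.sqrt ((K : ℝ) + 1) * (‖τ 1‖ / (2 * C))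
            = (Real.sqrt ((K : ℝ) + 1) * (‖τ 1‖ / 2)) / C := by
          field_simp
        rw [h13, div_le_iff₀ hC]
        linarith
      calc ((K : ℝ) + 1) ^ (q / 2) * c₀
          = (Real.sqrt ((K : ℝ) + 1) * (‖τ 1‖ / (2 * C))) ^ q := by
            rw [Real.mul_rpow (Real.sqrt_nonneg _) (by positivity), hpow]
        _ ≤ ‖τ s‖ ^ q := Real.rpow_le_rpow (by positivity) h8 hq.le
  have hcast : Tendsto (fun K : ℕ => (K : ℝ) + 1) atTop atTop :=
    tendsto_atTop_add_const_right _ _ tendsto_natCast_atTop_atTop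
  rcases lt_or_gt_of_ne hq2 with hlt | hgt
  · -- q < 2
    have hlim := (tendsto_rpow_atTop (by linarith : 0 < 1 - q / 2)).comp hcast
    obtain ⟨K, hK1, hK2⟩ := ((hlim.eventually_gt_atTop (4 * (C * ‖τ 1‖) ^ q / c₀)).and
      (eventually_ge_atTop 1)).exists
    simp only [Function.comp_apply] at hK1
    have h2 := (hcmp K).1
    have hK : (0 : ℝ) < (K : ℝ) + 1 := by positivity
    have hKp : 0 < ((K : ℝ) + 1) ^ (q / 2) := Real.rpow_pos_of_pos hK _
    have h3 : ((K : ℝ) + 1) ^ (1 - q / 2) * ((K : ℝ) + 1) ^ (q / 2) = (K : ℝ) + 1 := by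
      rw [← Real.rpow_add hK]
      simp
    rw [div_lt_iff₀ hc₀0] at hK1
    have hK3 : (1 : ℝ) ≤ K := by exact_mod_cast hK2
    have h4 : 4 * (C * ‖τ 1‖) ^ q * ((K : ℝ) + 1) ^ (q / 2) < ((K : ℝ) + 1) * c₀ := by
      calc 4 * (C * ‖τ 1‖) ^ q * ((K : ℝ) + 1) ^ (q / 2)
          < (((K : ℝ) + 1) ^ (1 - q / 2) * c₀) * ((K : ℝ) + 1) ^ (q / 2) :=
            mul_lt_mul_of_pos_right hK1 hKp
        _ = (((K : ℝ) + 1) ^ (1 - q / 2) * ((K : ℝ) + 1) ^ (q / 2)) * c₀ := by ring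
        _ = ((K : ℝ) + 1) * c₀ := by rw [h3]
    nlinarith
  · -- q > 2
    have hlim := (tendsto_rpow_atTop (by linarith : 0 < q / 2 - 1)).comp hcast
    obtain ⟨K, hK1⟩ := (hlim.eventually_gt_atTop (c₂ / c₀)).exists
    simp only [Function.comp_apply] at hK1
    have h2 := (hcmp K).2
    have hK : (0 : ℝ) < (K : ℝ) + 1 := by positivity
    have h3 : ((K : ℝ) + 1) ^ (q / 2 - 1) * ((K : ℝ) + 1) = ((K : ℝ) + 1) ^ (q / 2) := by
      rw [Real.rpow_sub_one hK.ne']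
      field_simp
    rw [div_lt_iff₀ hc₀0] at hK1
    have h4 : c₂ * ((K : ℝ) + 1) < ((K : ℝ) + 1) ^ (q / 2) * c₀ := by
      calc c₂ * ((K : ℝ) + 1) < (((K : ℝ) + 1) ^ (q / 2 - 1) * c₀) * ((K : ℝ) + 1) :=
            mul_lt_mul_of_pos_right hK1 hK
        _ = (((K : ℝ) + 1) ^ (q / 2 - 1) * ((K : ℝ) + 1)) * c₀ := by ring
        _ = ((K : ℝ) + 1) ^ (q / 2) * c₀ := by rw [h3]
    nlinarith

end H626Core
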