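import Pool.Agent.H626R5.Orbit

/-!
# Homomorphisms from an algebra with `ℓ^{p₁}`-orbit estimates into `B(ℓ^q)` vanish for `p₁ ≠ q`
-/

noncomputable section

namespace H626Core

open Filter Topology
open scoped ENNReal

variable {X : Type*} [MetricSpace X] [CompactSpace X]
variable {Y : Type*} [NormedAddCommGroup Y] [NormedSpace ℂ Y]
variable {A : Type*} [Ring A] [Algebra ℂ A]

/-- The source estimate: for every finite set `s` of times and every point `x₀`, the functions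
`0 ≤ g ≤ 1` supported near `x₀` satisfy the `ℓ^{p₁}` estimates along `s`. -/
def Src (p₁ : ℝ) (nrm : A → ℝ) (j : C(X, ℂ) →ₗ[ℂ] A) (v w : A) : Prop :=
  ∀ (s : Finset ℕ) (x₀ : X), ∃ ρ : ℝ, 0 < ρ ∧ ∀ g : C(X, ℂ),
    (∀ x, ∃ t : ℝ, 0 ≤ t ∧ t ≤ 1 ∧ g x = (t : ℂ)) → (∀ x, ρ ≤ dist x x₀ → g x = 0) →
    (∀ c : ℕ → ℂ, (∀ n, ‖c n‖ = 1) →
      nrm (∑ n ∈ s, c n • (v ^ n * j g)) ≤ (s.card : ℝ) ^ (1 / p₁) ∧
      nrm (∑ n ∈ s, (starRingEnd ℂ) (c n) • (j g * w ^ n)) ≤ (s.card : ℝ) ^ (1 - 1 / p₁)) ∧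
    ∀ m ∈ s, ∀ n ∈ s, m ≠ n → (j g * w ^ m) * (v ^ n * j g) = 0

theorem exists_bump_radius (ρ : ℝ) (hρ : 0 < ρ) : ∃ n : ℕ, 2 ≤ 4 ^ n * ρ := by
  obtain ⟨N, hN⟩ := exists_nat_gt (2 / ρ)
  refine ⟨N, ?_⟩
  have h4 : (N : ℝ) ≤ 4 ^ N := by
    have : N ≤ 4 ^ N := (Nat.lt_pow_self (by norm_num)).le
    exact_mod_cast this
  rw [div_lt_iff₀ hρ] at hN
  nlinarith

theorem orbit_final_BL [CompleteSpace Y] {p₁ q : ℝ} (hp₁ : 1 ≤ p₁) (hq : 0 < q) (hq2 : q ≠ 2)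
    (hne : p₁ ≠ q) (hBL : BL Y q) (nrm : A → ℝ) (Ψ : A →ₗ[ℂ] (Y →L[ℂ] Y))
    (hmul : ∀ a b, Ψ (a * b) = Ψ a * Ψ b) (K : ℝ) (hbd : ∀ a, ‖Ψ a‖ ≤ K * nrm a)
    (hK : 0 ≤ K) (j : C(X, ℂ) →ₗ[ℂ] A) (hj : ∀ f g, j (f * g) = j f * j g) (hj1 : j 1 = 1)
    (hjn : ∀ f, nrm (j f) ≤ ‖f‖) (v w : A) (hwv : w * v = 1) (hsrc : Src p₁ nrm j v w) :
    Ψ 1 = 0 := by
  by_contra h1
  have hK0 : 0 < K := by
    rcases hK.lt_or_eq with h | h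
    · exact h
    · exfalso
      have := hbd 1
      rw [← h, zero_mul] at this
      exact h1 (norm_le_zero_iff.1 this)
  obtain ⟨x₀, η, hη, heig⟩ := exists_eigenvector hq hq2 hBL (Ψ.comp j)
    (fun f g => by
      rw [LinearMap.comp_apply, LinearMap.comp_apply, LinearMap.comp_apply, hj, hmul]) K
    (fun f => (hbd _).trans (mul_le_mul_of_nonneg_left (hjn f) hK))
    (by rw [LinearMap.comp_apply, hj1]; exact h1)
  have hη0 : 0 < ‖η‖ := norm_pos_iff.2 hη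
  refine seq_contra hq (by linarith : 0 < p₁) hne hBL (fun n => Ψ (v ^ n) η) (‖η‖ / K) (K * ‖η‖)
    (by positivity) fun s c hc => ?_
  obtain ⟨ρ, hρ, h⟩ := hsrc s x₀
  obtain ⟨n, hn⟩ := exists_bump_radius ρ hρ
  obtain ⟨h2, h3⟩ := h (bump x₀ n) (bump_val x₀ n) (fun x hx => bump_zero x₀ n x (by
    have : (4 : ℝ) ^ n * ρ ≤ 4 ^ n * dist x x₀ := mul_le_mul_of_nonneg_left hx (by positivity)
    linarith))
  refine orbit_est hp₁ nrm Ψ hmul K hK0 hbd (j (bump x₀ n)) v w hwv η ?_ s c hc (h2 c hc).1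
    (h2 c hc).2 h3
  have h4 := heig (bump x₀ n)
  rw [LinearMap.comp_apply, bump_one x₀ n x₀ (by simp), one_smul] at h4
  exact h4

theorem orbit_final_par {p₁ : ℝ} (hp₁ : 1 ≤ p₁) (hne : p₁ ≠ 2)
    (par : ∀ x y : Y, ‖x + y‖ ^ 2 + ‖x - y‖ ^ 2 = 2 * (‖x‖ ^ 2 + ‖y‖ ^ 2))
    (nrm : A → ℝ) (Ψ : A →ₗ[ℂ] (Y →L[ℂ] Y))
    (hmul : ∀ a b, Ψ (a * b) = Ψ a * Ψ b) (K : ℝ) (hbd : ∀ a, ‖Ψ a‖ ≤ K * nrm a)
    (hK : 0 ≤ K) (j : C(X, ℂ) →ₗ[ℂ] A) (hj : ∀ f g, j (f * g) = j f * j g) (hj1 : j 1 = 1)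
    (v w : A) (hwv : w * v = 1)
    (hvn : ∀ n, nrm (v ^ n) ≤ 1) (hwn : ∀ n, nrm (w ^ n) ≤ 1) (hsrc : Src p₁ nrm j v w) :
    Ψ 1 = 0 := by
  classical
  by_contra h1
  have hK0 : 0 < K := by
    rcases hK.lt_or_eq with h | h
    · exact h
    · exfalso
      have := hbd 1
      rw [← h, zero_mul] at this
      exact h1 (norm_le_zero_iff.1 this)
  have hθ : 2 / p₁ ≠ 1 := fun h => hne ((div_eq_one_iff_eq (by linarith)).1 h).symm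
  refine asym hθ (A := 1) (B := K ^ 4) one_pos fun N hN => ?_
  have hN0 : (0 : ℝ) < N := by exact_mod_cast hN
  set s := Finset.range N with hs
  have hscard : s.card = N := Finset.card_range N
  -- local bumps
  choose ρ hρ hsrc' using hsrc s
  choose n hn using fun x₀ => exists_bump_radius (ρ x₀) (hρ x₀)
  obtain ⟨t, -, ht⟩ := isCompact_univ.elim_nhds_subcover
    (fun y : X => Metric.ball y (1 / 4 ^ (n y + 1)))
    (fun y _ => Metric.ball_mem_nhds y (by positivity))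
  obtain ⟨y, hy, hyne⟩ : ∃ y ∈ t, Ψ (j (bump y (n y + 1))) ≠ 0 := by
    by_contra hcon
    push Not at hcon
    have hprod : ∀ u : Finset X, u ⊆ t → Ψ (j (∏ y ∈ u, (1 - bump y (n y + 1)))) = Ψ 1 := by
      intro u
      induction u using Finset.induction_on with
      | empty => intro _; rw [Finset.prod_empty, hj1]
      | insert y u hyu ih =>
        intro hsub
        rw [Finset.prod_insert hyu, hj, map_sub, hmul, map_sub,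
          hcon y (hsub (Finset.mem_insert_self y u)), sub_zero, hj1,
          ih ((Finset.subset_insert y u).trans hsub), ← hmul, mul_one]
    have h0 : ∏ y ∈ t, (1 - bump y (n y + 1)) = 0 := by
      ext x
      rw [ContinuousMap.prod_apply, ContinuousMap.zero_apply]
      have hx := ht (Set.mem_univ x)
      simp only [Set.mem_iUnion, Metric.mem_ball] at hx
      obtain ⟨y, hy, hxy⟩ := hx
      refine Finset.prod_eq_zero hy ?_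
      rw [ContinuousMap.sub_apply, ContinuousMap.one_apply, bump_one, sub_self]
      rw [lt_div_iff₀ (by positivity)] at hxy
      linarith
    have h2 := hprod t subset_rfl
    rw [h0, map_zero, map_zero] at h2
    exact h1 h2.symm
  obtain ⟨ζ, hζ⟩ : ∃ ζ, Ψ (j (bump y (n y + 1))) ζ ≠ 0 := by
    by_contra h
    push Not at h
    exact hyne (ContinuousLinearMap.ext h)
  set η := Ψ (j (bump y (n y + 1))) ζ with hη
  have hη0 : 0 < ‖η‖ := norm_pos_iff.2 hζ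
  have hg : Ψ (j (bump y (n y))) η = η := by
    have h2 : Ψ (j (bump y (n y))) * Ψ (j (bump y (n y + 1))) = Ψ (j (bump y (n y + 1))) := by
      rw [← hmul, ← hj, bump_mul y (Nat.lt_succ_self _)]
    exact congrArg (fun S : Y →L[ℂ] Y => S ζ) h2
  have h1η : Ψ 1 η = η := by
    have h2 : Ψ 1 * Ψ (j (bump y (n y + 1))) = Ψ (j (bump y (n y + 1))) := by
      rw [← hmul, one_mul]
    exact congrArg (fun S : Y →L[ℂ] Y => S ζ) h2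
  obtain ⟨h2, h3⟩ := hsrc' y (bump y (n y)) (bump_val y (n y)) (fun x hx => bump_zero y (n y) x (by
    have : (4 : ℝ) ^ n y * ρ y ≤ 4 ^ n y * dist x y := mul_le_mul_of_nonneg_left hx (by positivity)
    linarith [hn y]))
  have hest : ∀ c : ℕ → ℂ, (∀ n, ‖c n‖ = 1) →
      ‖η‖ / K * (N : ℝ) ^ (1 / p₁) ≤ ‖∑ n ∈ s, c n • (Ψ (v ^ n) η)‖ ∧
      ‖∑ n ∈ s, c n • (Ψ (v ^ n) η)‖ ≤ K * ‖η‖ * (N : ℝ) ^ (1 / p₁) := by
    intro c hc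
    have := orbit_est hp₁ nrm Ψ hmul K hK0 hbd (j (bump y (n y))) v w hwv η hg s c hc (h2 c hc).1
      (h2 c hc).2 h3
    rwa [hscard] at this
  have hzup : ∀ k, ‖Ψ (v ^ k) η‖ ≤ K * ‖η‖ := fun k => by
    refine ((Ψ (v ^ k)).le_opNorm η).trans (mul_le_mul_of_nonneg_right ?_ (norm_nonneg _))
    refine (hbd _).trans ?_
    nlinarith [hvn k]
  have hzlow : ∀ k, ‖η‖ / K ≤ ‖Ψ (v ^ k) η‖ := fun k => by
    have h4 : Ψ (w ^ k) (Ψ (v ^ k) η) = η := by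
      have h5 : Ψ (w ^ k) * Ψ (v ^ k) = Ψ 1 := by rw [← hmul, pow_mul_pow_inv w v hwv k]
      have h6 := congrArg (fun S : Y →L[ℂ] Y => S η) h5
      exact h6.trans h1η
    rw [div_le_iff₀ hK0]
    have h5 : ‖Ψ (w ^ k)‖ ≤ K := (hbd _).trans (by nlinarith [hwn k])
    calc ‖η‖ = ‖Ψ (w ^ k) (Ψ (v ^ k) η)‖ := by rw [h4]
      _ ≤ ‖Ψ (w ^ k)‖ * ‖Ψ (v ^ k) η‖ := (Ψ (w ^ k)).le_opNorm _
      _ ≤ K * ‖Ψ (v ^ k) η‖ := mul_le_mul_of_nonneg_right h5 (norm_nonneg _)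
      _ = ‖Ψ (v ^ k) η‖ * K := mul_comm _ _
  have hNq : ((N : ℝ) ^ (1 / p₁)) ^ 2 = (N : ℝ) ^ (2 / p₁) := by
    rw [← Real.rpow_natCast, ← Real.rpow_mul hN0.le]
    congr 1
    push_cast
    ring
  have hNp : 0 < (N : ℝ) ^ (1 / p₁) := Real.rpow_pos_of_pos hN0 _
  have hsumup : ∑ k ∈ s, ‖Ψ (v ^ k) η‖ ^ 2 ≤ N * (K * ‖η‖) ^ 2 := by
    have : ∀ k ∈ s, ‖Ψ (v ^ k) η‖ ^ 2 ≤ (K * ‖η‖) ^ 2 := fun k _ =>
      pow_le_pow_left₀ (norm_nonneg _) (hzup k) 2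
    refine (Finset.sum_le_card_nsmul s _ _ this).trans ?_
    rw [nsmul_eq_mul, hscard]
  have hsumlow : N * (‖η‖ / K) ^ 2 ≤ ∑ k ∈ s, ‖Ψ (v ^ k) η‖ ^ 2 := by
    have : ∀ k ∈ s, (‖η‖ / K) ^ 2 ≤ ‖Ψ (v ^ k) η‖ ^ 2 := fun k _ =>
      pow_le_pow_left₀ (by positivity) (hzlow k) 2
    refine le_trans ?_ (Finset.card_nsmul_le_sum s _ _ this)
    rw [nsmul_eq_mul, hscard]
  constructor
  · -- N ≤ K⁴ N^{2/p₁}
    obtain ⟨c, hc, h4⟩ := signs_ge par (fun k => Ψ (v ^ k) η) s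
    have h5 := (hest c hc).2
    have h6 : ‖∑ k ∈ s, c k • (Ψ (v ^ k) η)‖ ^ 2 ≤ (K * ‖η‖ * (N : ℝ) ^ (1 / p₁)) ^ 2 :=
      pow_le_pow_left₀ (norm_nonneg _) h5 2
    have h7 : N * (‖η‖ / K) ^ 2 ≤ (K * ‖η‖ * (N : ℝ) ^ (1 / p₁)) ^ 2 :=
      hsumlow.trans (h4.trans h6)
    rw [mul_pow, hNq, div_pow, mul_pow] at h7
    have h8 : N * (‖η‖ ^ 2 / K ^ 2) = (N * ‖η‖ ^ 2) / K ^ 2 := by ring
    rw [h8, div_le_iff₀ (by positivity)] at h7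
    have h9 : (N : ℝ) * ‖η‖ ^ 2 ≤ (K ^ 4 * (N : ℝ) ^ (2 / p₁)) * ‖η‖ ^ 2 := by
      refine h7.trans (le_of_eq ?_)
      ring
    have := le_of_mul_le_mul_right h9 (by positivity)
    linarith
  · obtain ⟨c, hc, h4⟩ := signs_le par (fun k => Ψ (v ^ k) η) s
    have h5 := (hest c hc).1
    have h6 : (‖η‖ / K * (N : ℝ) ^ (1 / p₁)) ^ 2 ≤ ‖∑ k ∈ s, c k • (Ψ (v ^ k) η)‖ ^ 2 :=
      pow_le_pow_left₀ (by positivity) h5 2
    have h7 : (‖η‖ / K * (N : ℝ) ^ (1 / p₁)) ^ 2 ≤ N * (K * ‖η‖) ^ 2 :=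
      h6.trans (h4.trans hsumup)
    rw [mul_pow, hNq, div_pow, mul_pow] at h7
    have h8 : ‖η‖ ^ 2 / K ^ 2 * (N : ℝ) ^ (2 / p₁) = (‖η‖ ^ 2 * (N : ℝ) ^ (2 / p₁)) / K ^ 2 := by
      ring
    rw [h8, div_le_iff₀ (by positivity)] at h7
    have h9 : (N : ℝ) ^ (2 / p₁) * ‖η‖ ^ 2 ≤ (K ^ 4 * N) * ‖η‖ ^ 2 := by
      calc (N : ℝ) ^ (2 / p₁) * ‖η‖ ^ 2 = ‖η‖ ^ 2 * (N : ℝ) ^ (2 / p₁) := mul_comm _ _
        _ ≤ _ := h7
        _ = _ := by ring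
    have := le_of_mul_le_mul_right h9 (by positivity)
    linarith

/-- **The abstract rigidity theorem.**  A bounded homomorphism into `B(ℓ^q)` from an algebra which
satisfies the orbit estimates with exponent `p₁ ≠ q` kills the unit. -/
theorem orbit_final {ι : Type*} {p : ℝ≥0∞} [Fact (1 ≤ p)] (hp : p ≠ ⊤) {p₁ : ℝ} (hp₁ : 1 ≤ p₁)
    (hne : p₁ ≠ p.toReal) (nrm : A → ℝ)
    (Ψ : A →ₗ[ℂ] (lp (fun _ : ι => ℂ) p →L[ℂ] lp (fun _ : ι => ℂ) p))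
    (hmul : ∀ a b, Ψ (a * b) = Ψ a * Ψ b) (K : ℝ) (hK : 0 ≤ K) (hbd : ∀ a, ‖Ψ a‖ ≤ K * nrm a)
    (j : C(X, ℂ) →ₗ[ℂ] A) (hj : ∀ f g, j (f * g) = j f * j g) (hj1 : j 1 = 1)
    (hjn : ∀ f, nrm (j f) ≤ ‖f‖) (v w : A) (hwv : w * v = 1)
    (hvn : ∀ n, nrm (v ^ n) ≤ 1) (hwn : ∀ n, nrm (w ^ n) ≤ 1) (hsrc : Src p₁ nrm j v w) :
    Ψ 1 = 0 := by
  have hp1 : 1 ≤ p := Fact.out
  by_cases h2 : p.toReal = 2
  · have hp2 : p = 2 := by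
      rw [← ENNReal.ofReal_toReal hp, h2]
      simp
    subst hp2
    refine orbit_final_par hp₁ (by rw [h2] at hne; exact hne) (fun x y => ?_) nrm Ψ hmul K hbd hK j
      hj hj1 v w hwv hvn hwn hsrc
    have := parallelogram_law_with_norm ℂ x y
    nlinarith [this]
  · exact orbit_final_BL hp₁ (ENNReal.toReal_pos (by positivity) hp) h2 hne (BL_lp hp) nrm Ψ hmul K
      hbd hK j hj hj1 hjn v w hwv hsrc

end H626Core
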