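import Pool.Agent.H626R5.Core3
import Pool.Agent.H626R5.BLlp

/-!
# Orbit estimates and the final contradiction, abstractly
-/

noncomputable section

namespace H626Core

open Filter Topology
open scoped ENNReal

theorem asym {θ : ℝ} (hθ : θ ≠ 1) {A B : ℝ} (hA : 0 < A)
    (h : ∀ N : ℕ, 1 ≤ N → A * N ≤ B * (N : ℝ) ^ θ ∧ A * (N : ℝ) ^ θ ≤ B * N) : False := by
  have hcast : Tendsto (fun K : ℕ => (K : ℝ)) atTop atTop := tendsto_natCast_atTop_atTop
  rcases lt_or_gt_of_ne hθ with hlt | hgt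
  · have hlim := (tendsto_rpow_atTop (by linarith : 0 < 1 - θ)).comp hcast
    obtain ⟨N, h1, h2⟩ := ((hlim.eventually_gt_atTop (B / A)).and (eventually_ge_atTop 1)).exists
    simp only [Function.comp_apply] at h1
    rw [div_lt_iff₀ hA] at h1
    have hN : (0 : ℝ) < N := by exact_mod_cast h2
    have h3 : (N : ℝ) ^ (1 - θ) * (N : ℝ) ^ θ = N := by
      rw [← Real.rpow_add hN]; simp
    have h4 := (h N h2).1
    have h5 : B * (N : ℝ) ^ θ < (N : ℝ) ^ (1 - θ) * A * (N : ℝ) ^ θ :=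
      mul_lt_mul_of_pos_right h1 (Real.rpow_pos_of_pos hN _)
    have h6 : (N : ℝ) ^ (1 - θ) * A * (N : ℝ) ^ θ = A * N := by
      rw [mul_right_comm, h3, mul_comm]
    linarith
  · have hlim := (tendsto_rpow_atTop (by linarith : 0 < θ - 1)).comp hcast
    obtain ⟨N, h1, h2⟩ := ((hlim.eventually_gt_atTop (B / A)).and (eventually_ge_atTop 1)).exists
    simp only [Function.comp_apply] at h1
    rw [div_lt_iff₀ hA] at h1
    have hN : (0 : ℝ) < N := by exact_mod_cast h2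
    have h3 : (N : ℝ) ^ (θ - 1) * (N : ℝ) = (N : ℝ) ^ θ := by
      rw [Real.rpow_sub_one hN.ne']
      field_simp
    have h4 := (h N h2).2
    have h5 : B * (N : ℝ) < (N : ℝ) ^ (θ - 1) * A * (N : ℝ) := mul_lt_mul_of_pos_right h1 hN
    have h6 : (N : ℝ) ^ (θ - 1) * A * (N : ℝ) = A * (N : ℝ) ^ θ := by
      rw [mul_right_comm, h3, mul_comm]
    linarith

section seq

variable {Y : Type*} [NormedAddCommGroup Y] [NormedSpace ℂ Y]

/-- Two members of a bounded sequence are close on finitely many functionals. -/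
theorem pigeon (z : ℕ → Y) (b : ℝ) (hz : ∀ n, ‖z n‖ ≤ b) (F : Finset (Y →L[ℂ] ℂ)) (ε : ℝ)
    (hε : 0 < ε) (M : ℕ) : ∃ n m, M ≤ n ∧ n < m ∧ ∀ e ∈ F, ‖e (z m - z n)‖ ≤ ε := by
  let x : ℕ → (F → ℂ) := fun k e => (e : Y →L[ℂ] ℂ) (z k)
  have hb : ∀ k, x k ∈ Metric.closedBall (0 : F → ℂ) ((∑ e ∈ F, ‖e‖) * b) := by
    intro k
    have hb0 : 0 ≤ b := (norm_nonneg _).trans (hz 0)
    have hS : 0 ≤ ∑ e ∈ F, ‖e‖ := Finset.sum_nonneg fun _ _ => norm_nonneg _
    rw [mem_closedBall_zero_iff, pi_norm_le_iff_of_nonneg (mul_nonneg hS hb0)]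
    intro e
    refine ((e : Y →L[ℂ] ℂ).le_opNorm _).trans ?_
    refine mul_le_mul ?_ (hz k) (norm_nonneg _) hS
    exact Finset.single_le_sum (f := fun e : Y →L[ℂ] ℂ => ‖e‖) (fun _ _ => norm_nonneg _) e.2
  obtain ⟨l, -, φ, hφ, hlim⟩ := tendsto_subseq_of_bounded Metric.isBounded_closedBall hb
  obtain ⟨K, hK⟩ := Metric.cauchySeq_iff.1 hlim.cauchySeq ε hε
  refine ⟨φ (max K M), φ (max K M + 1), ?_, hφ (Nat.lt_succ_self _), fun e he => ?_⟩
  · exact (le_max_right K M).trans (hφ.id_le _)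
  · have h1 := hK (max K M + 1) ((le_max_left K M).trans (Nat.le_succ _)) (max K M)
      (le_max_left K M)
    have h2 := (dist_le_pi_dist _ _ (⟨e, he⟩ : F)).trans h1.le
    rw [dist_eq_norm] at h2
    rw [map_sub]
    exact h2

theorem seq_contra {q p₁ : ℝ} (hq : 0 < q) (hp₁ : 0 < p₁) (hne : p₁ ≠ q) (hBL : BL Y q)
    (z : ℕ → Y) (a b : ℝ) (ha : 0 < a)
    (h : ∀ (s : Finset ℕ) (c : ℕ → ℂ), (∀ n, ‖c n‖ = 1) →
      a * (s.card : ℝ) ^ (1 / p₁) ≤ ‖∑ n ∈ s, c n • z n‖ ∧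
      ‖∑ n ∈ s, c n • z n‖ ≤ b * (s.card : ℝ) ^ (1 / p₁)) : False := by
  classical
  have hz : ∀ n, ‖z n‖ ≤ b := fun n => by
    have := (h {n} (fun _ => 1) (fun _ => by simp)).2
    simpa using this
  have hb : 0 < b := by
    have h1 := (h {0} (fun _ => 1) (fun _ => by simp))
    simp only [Finset.sum_singleton, one_smul, Finset.card_singleton, Nat.cast_one,
      Real.one_rpow, mul_one] at h1
    linarith [h1.1, h1.2]
  have h2p : (0 : ℝ) < 2 ^ (1 / p₁) := Real.rpow_pos_of_pos two_pos _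
  set α := a * 2 ^ (1 / p₁) with hα
  set β := b * 2 ^ (1 / p₁) with hβ
  have hα0 : 0 < α := by positivity
  have hβ0 : 0 < β := by positivity
  have hdiff : ∀ n m, n < m → α ≤ ‖z m - z n‖ ∧ ‖z m - z n‖ ≤ β := by
    intro n m hnm
    have h1 := h {n, m} (fun k => if k = n then -1 else 1) (fun k => by
      split_ifs <;> simp)
    rw [Finset.sum_pair hnm.ne, Finset.card_pair hnm.ne, if_pos rfl, if_neg hnm.ne'] at h1
    have h2 : (-1 : ℂ) • z n + (1 : ℂ) • z m = z m - z n := by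
      rw [neg_smul, one_smul, one_smul]; abel
    rw [h2] at h1
    exact_mod_cast h1
  have hαq : 0 < α ^ q := Real.rpow_pos_of_pos hα0 q
  have hβq : 0 < β ^ q := Real.rpow_pos_of_pos hβ0 q
  have key : ∀ K : ℕ, ∃ (s : Finset ℕ) (c : ℕ → ℂ), (∀ n, ‖c n‖ = 1) ∧ s.card = 2 * K ∧
      (K : ℝ) * (α ^ q / 2) ≤ ‖∑ n ∈ s, c n • z n‖ ^ q ∧
      ‖∑ n ∈ s, c n • z n‖ ^ q ≤ K * (β ^ q + α ^ q / 2) := by
    intro K
    induction K with
    | zero =>
      refine ⟨∅, fun _ => 1, fun _ => by simp, by simp, ?_, ?_⟩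
      · simp [Real.zero_rpow hq.ne']
      · simp [Real.zero_rpow hq.ne']
    | succ K ih =>
      obtain ⟨s, c, hc, hs, h1, h2⟩ := ih
      obtain ⟨F, ε, hε, hF⟩ := hBL (∑ n ∈ s, c n • z n) β (α ^ q / 2) (by positivity)
      obtain ⟨n, m, hn, hnm, hsmall⟩ := pigeon z b hz F ε hε (s.sup id + 1)
      have hlt : ∀ k ∈ s, k < n := fun k hk =>
        (Nat.lt_succ_of_le (Finset.le_sup (f := id) hk)).trans_le hn
      have hns : n ∉ s := fun h => (hlt n h).false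
      have hms : m ∉ s := fun h => ((hlt m h).trans hnm).false
      have hsum : ∑ k ∈ insert n (insert m s), (if k = n then -1 else if k = m then 1 else c k) • z k
          = ∑ n ∈ s, c n • z n + (z m - z n) := by
        rw [Finset.sum_insert (by
          rw [Finset.mem_insert, not_or]; exact ⟨hnm.ne, hns⟩), Finset.sum_insert hms,
          if_pos rfl, if_neg hnm.ne', if_pos rfl]
        have : ∑ k ∈ s, (if k = n then -1 else if k = m then 1 else c k) • z k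
            = ∑ k ∈ s, c k • z k := by
          refine Finset.sum_congr rfl fun k hk => ?_
          rw [if_neg (hlt k hk).ne, if_neg ((hlt k hk).trans hnm).ne]
        rw [this, neg_smul, one_smul, one_smul]
        abel
      refine ⟨insert n (insert m s), fun k => if k = n then -1 else if k = m then 1 else c k,
        fun k => ?_, ?_, ?_, ?_⟩
      · dsimp only
        split_ifs
        · simp
        · simp
        · exact hc k
      · rw [Finset.card_insert_of_notMem (by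
          rw [Finset.mem_insert, not_or]; exact ⟨hnm.ne, hns⟩),
          Finset.card_insert_of_notMem hms, hs]
        ring
      · rw [hsum]
        have h3 := (abs_le.1 (hF _ (hdiff n m hnm).2 hsmall)).1
        have h4 : α ^ q ≤ ‖z m - z n‖ ^ q := Real.rpow_le_rpow hα0.le (hdiff n m hnm).1 hq.le
        push_cast
        linarith
      · rw [hsum]
        have h3 := (abs_le.1 (hF _ (hdiff n m hnm).2 hsmall)).2
        have h4 : ‖z m - z n‖ ^ q ≤ β ^ q :=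
          Real.rpow_le_rpow (norm_nonneg _) (hdiff n m hnm).2 hq.le
        push_cast
        linarith
  have hθ : q / p₁ ≠ 1 := fun h => hne ((div_eq_one_iff_eq hp₁.ne').1 h).symm
  have haq : 0 < a ^ q := Real.rpow_pos_of_pos ha q
  have hbq : 0 < b ^ q := Real.rpow_pos_of_pos hb q
  set t := (2 : ℝ) ^ (q / p₁) with ht
  have ht0 : 0 < t := Real.rpow_pos_of_pos two_pos _
  refine asym hθ (A := min (α ^ q / 2) (a ^ q * t)) (B := max (b ^ q * t) (β ^ q + α ^ q / 2))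
    (by positivity) fun K hK => ?_
  obtain ⟨s, c, hc, hs, h1, h2⟩ := key K
  have h3 := h s c hc
  rw [hs] at h3
  have hK0 : (0 : ℝ) < K := by exact_mod_cast hK
  have h4 : (((2 * K : ℕ) : ℝ) ^ (1 / p₁)) ^ q = t * (K : ℝ) ^ (q / p₁) := by
    rw [← Real.rpow_mul (by positivity), ht]
    push_cast
    rw [Real.mul_rpow two_pos.le hK0.le]
    congr 2 <;> ring
  have h5 : ∀ r : ℝ, 0 < r → (r * ((2 * K : ℕ) : ℝ) ^ (1 / p₁)) ^ q
      = r ^ q * t * (K : ℝ) ^ (q / p₁) := by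
    intro r hr
    rw [Real.mul_rpow hr.le (Real.rpow_nonneg (by positivity) _), h4, mul_assoc]
  have hKq : 0 < (K : ℝ) ^ (q / p₁) := Real.rpow_pos_of_pos hK0 _
  constructor
  · have h6 : ‖∑ n ∈ s, c n • z n‖ ^ q ≤ b ^ q * t * (K : ℝ) ^ (q / p₁) := by
      rw [← h5 b hb]
      exact Real.rpow_le_rpow (norm_nonneg _) h3.2 hq.le
    calc min (α ^ q / 2) (a ^ q * t) * K ≤ (α ^ q / 2) * K :=
          mul_le_mul_of_nonneg_right (min_le_left _ _) hK0.le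
      _ ≤ b ^ q * t * (K : ℝ) ^ (q / p₁) := by linarith
      _ ≤ max (b ^ q * t) (β ^ q + α ^ q / 2) * (K : ℝ) ^ (q / p₁) :=
          mul_le_mul_of_nonneg_right (le_max_left _ _) hKq.le
  · have h6 : a ^ q * t * (K : ℝ) ^ (q / p₁) ≤ ‖∑ n ∈ s, c n • z n‖ ^ q := by
      rw [← h5 a ha]
      exact Real.rpow_le_rpow (by positivity) h3.1 hq.le
    calc min (α ^ q / 2) (a ^ q * t) * (K : ℝ) ^ (q / p₁)
        ≤ (a ^ q * t) * (K : ℝ) ^ (q / p₁) :=
          mul_le_mul_of_nonneg_right (min_le_right _ _) hKq.le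
      _ ≤ (β ^ q + α ^ q / 2) * K := by linarith
      _ ≤ max (b ^ q * t) (β ^ q + α ^ q / 2) * K :=
          mul_le_mul_of_nonneg_right (le_max_right _ _) hK0.le

theorem signs_le (par : ∀ x y : Y, ‖x + y‖ ^ 2 + ‖x - y‖ ^ 2 = 2 * (‖x‖ ^ 2 + ‖y‖ ^ 2))
    (z : ℕ → Y) (s : Finset ℕ) : ∃ c : ℕ → ℂ, (∀ n, ‖c n‖ = 1) ∧
      ‖∑ n ∈ s, c n • z n‖ ^ 2 ≤ ∑ n ∈ s, ‖z n‖ ^ 2 := by
  classical
  induction s using Finset.induction_on with
  | empty => exact ⟨fun _ => 1, fun _ => by simp, by simp⟩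
  | insert m s hm ih =>
    obtain ⟨c, hc, h⟩ := ih
    have hpar := par (∑ n ∈ s, c n • z n) (z m)
    have key : ∃ t : ℂ, ‖t‖ = 1 ∧ ‖t • z m + ∑ n ∈ s, c n • z n‖ ^ 2
        ≤ ‖z m‖ ^ 2 + ‖∑ n ∈ s, c n • z n‖ ^ 2 := by
      by_cases h1 : ‖∑ n ∈ s, c n • z n + z m‖ ^ 2 ≤ ‖z m‖ ^ 2 + ‖∑ n ∈ s, c n • z n‖ ^ 2
      · exact ⟨1, by simp, by rw [one_smul, add_comm]; exact h1⟩
      · refine ⟨-1, by simp, ?_⟩
        rw [neg_smul, one_smul, neg_add_eq_sub]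
        linarith
    obtain ⟨t, ht, h2⟩ := key
    refine ⟨fun k => if k = m then t else c k, fun k => ?_, ?_⟩
    · dsimp only
      split_ifs
      · exact ht
      · exact hc k
    · rw [Finset.sum_insert hm, Finset.sum_insert hm]
      dsimp only
      rw [if_pos rfl]
      have : ∑ k ∈ s, (if k = m then t else c k) • z k = ∑ k ∈ s, c k • z k :=
        Finset.sum_congr rfl fun k hk => by rw [if_neg (fun h : k = m => hm (h ▸ hk))]
      rw [this]
      linarith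

theorem signs_ge (par : ∀ x y : Y, ‖x + y‖ ^ 2 + ‖x - y‖ ^ 2 = 2 * (‖x‖ ^ 2 + ‖y‖ ^ 2))
    (z : ℕ → Y) (s : Finset ℕ) : ∃ c : ℕ → ℂ, (∀ n, ‖c n‖ = 1) ∧
      ∑ n ∈ s, ‖z n‖ ^ 2 ≤ ‖∑ n ∈ s, c n • z n‖ ^ 2 := by
  classical
  induction s using Finset.induction_on with
  | empty => exact ⟨fun _ => 1, fun _ => by simp, by simp⟩
  | insert m s hm ih =>
    obtain ⟨c, hc, h⟩ := ih
    have hpar := par (∑ n ∈ s, c n • z n) (z m)
    have key : ∃ t : ℂ, ‖t‖ = 1 ∧ ‖z m‖ ^ 2 + ‖∑ n ∈ s, c n • z n‖ ^ 2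
        ≤ ‖t • z m + ∑ n ∈ s, c n • z n‖ ^ 2 := by
      by_cases h1 : ‖z m‖ ^ 2 + ‖∑ n ∈ s, c n • z n‖ ^ 2 ≤ ‖∑ n ∈ s, c n • z n + z m‖ ^ 2
      · exact ⟨1, by simp, by rw [one_smul, add_comm (z m)]; exact h1⟩
      · refine ⟨-1, by simp, ?_⟩
        rw [neg_smul, one_smul, neg_add_eq_sub]
        linarith
    obtain ⟨t, ht, h2⟩ := key
    refine ⟨fun k => if k = m then t else c k, fun k => ?_, ?_⟩
    · dsimp only
      split_ifs
      · exact ht
      · exact hc k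
    · rw [Finset.sum_insert hm, Finset.sum_insert hm]
      dsimp only
      rw [if_pos rfl]
      have : ∑ k ∈ s, (if k = m then t else c k) • z k = ∑ k ∈ s, c k • z k :=
        Finset.sum_congr rfl fun k hk => by rw [if_neg (fun h : k = m => hm (h ▸ hk))]
      rw [this]
      linarith

end seq

section orbit

variable {X : Type*} [MetricSpace X] [CompactSpace X]
variable {Y : Type*} [NormedAddCommGroup Y] [NormedSpace ℂ Y]
variable {A : Type*} [Ring A] [Algebra ℂ A]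

omit [Algebra ℂ A] in
theorem pow_mul_pow_inv (w v : A) (h : w * v = 1) (m : ℕ) : w ^ m * v ^ m = 1 := by
  induction m with
  | zero => simp
  | succ m ih =>
    rw [pow_succ w, pow_succ' v]
    have : w ^ m * w * (v * v ^ m) = w ^ m * (w * v) * v ^ m := by noncomm_ring
    rw [this, h, mul_one, ih]

theorem orbit_est {p₁ : ℝ} (hp₁ : 1 ≤ p₁) (nrm : A → ℝ)
    (Ψ : A →ₗ[ℂ] (Y →L[ℂ] Y)) (hmul : ∀ a b, Ψ (a * b) = Ψ a * Ψ b)
    (K : ℝ) (hK : 0 < K) (hbd : ∀ a, ‖Ψ a‖ ≤ K * nrm a)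
    (g v w : A) (hwv : w * v = 1) (η : Y) (hg : Ψ g η = η) (s : Finset ℕ) (c : ℕ → ℂ)
    (hc : ∀ n, ‖c n‖ = 1)
    (h1 : nrm (∑ n ∈ s, c n • (v ^ n * g)) ≤ (s.card : ℝ) ^ (1 / p₁))
    (h2 : nrm (∑ n ∈ s, (starRingEnd ℂ) (c n) • (g * w ^ n)) ≤ (s.card : ℝ) ^ (1 - 1 / p₁))
    (h3 : ∀ m ∈ s, ∀ n ∈ s, m ≠ n → (g * w ^ m) * (v ^ n * g) = 0) :
    ‖η‖ / K * (s.card : ℝ) ^ (1 / p₁) ≤ ‖∑ n ∈ s, c n • (Ψ (v ^ n) η)‖ ∧
      ‖∑ n ∈ s, c n • (Ψ (v ^ n) η)‖ ≤ K * ‖η‖ * (s.card : ℝ) ^ (1 / p₁) := by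
  have hp0 : 0 < p₁ := by linarith
  set T := ∑ n ∈ s, c n • (v ^ n * g) with hT
  set R := ∑ n ∈ s, (starRingEnd ℂ) (c n) • (g * w ^ n) with hR
  have hTη : Ψ T η = ∑ n ∈ s, c n • (Ψ (v ^ n) η) := by
    rw [hT, map_sum, sum_apply]
    refine Finset.sum_congr rfl fun n _ => ?_
    rw [map_smul, hmul]
    show c n • (Ψ (v ^ n) (Ψ g η)) = _
    rw [hg]
  have hup : ‖∑ n ∈ s, c n • (Ψ (v ^ n) η)‖ ≤ K * ‖η‖ * (s.card : ℝ) ^ (1 / p₁) := by
    rw [← hTη]
    refine ((Ψ T).le_opNorm _).trans ?_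
    have h4 : ‖Ψ T‖ ≤ K * (s.card : ℝ) ^ (1 / p₁) :=
      (hbd T).trans (mul_le_mul_of_nonneg_left h1 hK.le)
    calc ‖Ψ T‖ * ‖η‖ ≤ (K * (s.card : ℝ) ^ (1 / p₁)) * ‖η‖ :=
          mul_le_mul_of_nonneg_right h4 (norm_nonneg _)
      _ = _ := by ring
  refine ⟨?_, hup⟩
  rcases Finset.eq_empty_or_nonempty s with hs | hs
  · subst hs
    simp only [Finset.card_empty, Nat.cast_zero, Finset.sum_empty, norm_zero]
    rw [Real.zero_rpow (by positivity), mul_zero]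
  have hs0 : (0 : ℝ) < s.card := by exact_mod_cast hs.card_pos
  have hRT : R * T = (s.card : ℂ) • (g * g) := by
    rw [hR, hT, Finset.sum_mul_sum]
    have h5 : ∀ m ∈ s, ∑ n ∈ s, ((starRingEnd ℂ) (c m) • (g * w ^ m)) * (c n • (v ^ n * g))
        = g * g := by
      intro m hm
      rw [Finset.sum_eq_single_of_mem m hm]
      · have h6 : w ^ m * v ^ m = 1 := pow_mul_pow_inv w v hwv m
        rw [smul_mul_smul_comm]
        have h7 : (starRingEnd ℂ) (c m) * c m = 1 := by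
          rw [Complex.conj_mul', hc m]; simp
        rw [h7, one_smul]
        have : g * w ^ m * (v ^ m * g) = g * (w ^ m * v ^ m) * g := by noncomm_ring
        rw [this, h6, mul_one]
      · intro n hn hnm
        rw [smul_mul_smul_comm, h3 m hm n hn hnm.symm, smul_zero]
    rw [Finset.sum_congr rfl h5, Finset.sum_const]
    exact (Nat.cast_smul_eq_nsmul ℂ _ _).symm
  have h8 : Ψ R (Ψ T η) = (s.card : ℂ) • η := by
    have : Ψ (R * T) η = Ψ R (Ψ T η) := by rw [hmul]; rfl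
    rw [← this, hRT, map_smul, hmul]
    show (s.card : ℂ) • (Ψ g (Ψ g η)) = _
    rw [hg, hg]
  have h9 : (s.card : ℝ) * ‖η‖ ≤ K * (s.card : ℝ) ^ (1 - 1 / p₁) * ‖Ψ T η‖ := by
    have h10 : ‖(s.card : ℂ) • η‖ = (s.card : ℝ) * ‖η‖ := by
      rw [norm_smul, Complex.norm_natCast]
    rw [← h10, ← h8]
    refine ((Ψ R).le_opNorm _).trans ?_
    refine mul_le_mul_of_nonneg_right ?_ (norm_nonneg _)
    exact (hbd R).trans (mul_le_mul_of_nonneg_left h2 hK.le)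
  have h11 : (s.card : ℝ) ^ (1 - 1 / p₁) * (s.card : ℝ) ^ (1 / p₁) = s.card := by
    rw [← Real.rpow_add hs0]; simp
  have h12 : 0 < (s.card : ℝ) ^ (1 - 1 / p₁) := Real.rpow_pos_of_pos hs0 _
  rw [← hTη]
  have h13 : (s.card : ℝ) ^ (1 - 1 / p₁) * ((s.card : ℝ) ^ (1 / p₁) * ‖η‖)
      ≤ (s.card : ℝ) ^ (1 - 1 / p₁) * (K * ‖Ψ T η‖) := by
    rw [← mul_assoc, h11]
    linarith
  have h14 := le_of_mul_le_mul_left h13 h12
  rw [div_mul_eq_mul_div, div_le_iff₀ hK]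
  linarith

end orbit

end H626Core
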